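import Pool.Agent.U788.PAL.OneComp

set_option autoImplicit false

/-! The evaluation is primitive recursive. -/

namespace Pool.Agent.U788.PAL.One

theorem prim_pow : Primrec₂ (fun a b : ℕ => a ^ b) := Primrec₂.unpaired'.1 Nat.Primrec.pow

theorem prim_bit : Primrec₂ (fun x v : ℕ => x.testBit v) := by
  have h : Primrec₂ (fun x v : ℕ => (x / 2 ^ v % 2 == 1)) :=
    Primrec.beq.comp₂ (Primrec.nat_mod.comp₂ (Primrec.nat_div.comp₂ Primrec₂.left
      (prim_pow.comp₂ (Primrec₂.const 2) Primrec₂.right)) (Primrec₂.const 2)) (Primrec₂.const 1)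
  refine h.of_eq ?_
  intro x v
  rw [Nat.testBit_eq_decide_div_mod_eq]
  rfl

section

variable {α : Type} [Primcodable α]

theorem prim_mk {n : α → ℕ} {p : α → ℕ → Bool} (hn : Primrec n) (hp : Primrec₂ p) :
    Primrec fun a => mk (n a) (p a) := by
  unfold mk
  refine Primrec.nat_rec' hn (Primrec.const 0) (h := fun a (s : ℕ × ℕ) =>
    s.2 + bif p a s.1 then 2 ^ s.1 else 0) ?_
  have h1 : Primrec fun q : α × (ℕ × ℕ) => q.2.1 := Primrec.fst.comp Primrec.snd
  have h2 : Primrec fun q : α × (ℕ × ℕ) => q.2.2 := Primrec.snd.comp Primrec.snd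
  exact Primrec.nat_add.comp h2 (Primrec.cond (hp.comp Primrec.fst h1)
    (prim_pow.comp (Primrec.const 2) h1) (Primrec.const 0))

theorem prim_allB {n : α → ℕ} {p : α → ℕ → Bool} (hn : Primrec n) (hp : Primrec₂ p) :
    Primrec fun a => allB (n a) (p a) := by
  unfold allB
  refine Primrec.nat_rec' hn (Primrec.const true) (h := fun a (s : ℕ × Bool) =>
    s.2 && p a s.1) ?_
  have h1 : Primrec fun q : α × (ℕ × Bool) => q.2.1 := Primrec.fst.comp Primrec.snd
  have h2 : Primrec fun q : α × (ℕ × Bool) => q.2.2 := Primrec.snd.comp Primrec.snd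
  exact Primrec.and.comp h2 (hp.comp Primrec.fst h1)

theorem prim_tab {m : α → ℕ} {f : α → ℕ → ℕ} (hm : Primrec m) (hf : Primrec₂ f) :
    Primrec fun a => tab (m a) (f a) := Primrec.list_map (Primrec.list_range.comp hm) hf

theorem prim_fn {T : α → List ℕ} {x : α → ℕ} (hT : Primrec T) (hx : Primrec x) :
    Primrec fun a => fn (T a) (x a) := (Primrec.list_getD 0).comp hT hx

theorem prim_opVar {n i : α → ℕ} (hn : Primrec n) (hi : Primrec i) :
    Primrec₂ fun a D => opVar (n a) (i a) D := by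
  unfold opVar
  refine prim_mk (α := α × ℕ) (hn.comp Primrec.fst) ?_
  exact Primrec.and.comp
    (prim_bit.comp (Primrec.snd.comp Primrec.fst) Primrec.snd)
    (prim_bit.comp Primrec.snd (hi.comp (Primrec.fst.comp Primrec.fst)))

theorem prim_opNeg {n : α → ℕ} {f : α → ℕ → ℕ} (hn : Primrec n) (hf : Primrec₂ f) :
    Primrec₂ fun a D => opNeg (n a) (f a) D := by
  unfold opNeg
  refine prim_mk (α := α × ℕ) (hn.comp Primrec.fst) ?_
  have hD : Primrec fun q : (α × ℕ) × ℕ => q.1.2 := Primrec.snd.comp Primrec.fst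
  have ha : Primrec fun q : (α × ℕ) × ℕ => q.1.1 := Primrec.fst.comp Primrec.fst
  exact Primrec.and.comp (prim_bit.comp hD Primrec.snd)
    (Primrec.not.comp (prim_bit.comp (hf.comp ha hD) Primrec.snd))

theorem prim_opAnd {n : α → ℕ} {f g : α → ℕ → ℕ} (hn : Primrec n) (hf : Primrec₂ f)
    (hg : Primrec₂ g) : Primrec₂ fun a D => opAnd (n a) (f a) (g a) D := by
  unfold opAnd
  refine prim_mk (α := α × ℕ) (hn.comp Primrec.fst) ?_
  have hD : Primrec fun q : (α × ℕ) × ℕ => q.1.2 := Primrec.snd.comp Primrec.fst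
  have ha : Primrec fun q : (α × ℕ) × ℕ => q.1.1 := Primrec.fst.comp Primrec.fst
  exact Primrec.and.comp (prim_bit.comp (hf.comp ha hD) Primrec.snd)
    (prim_bit.comp (hg.comp ha hD) Primrec.snd)

theorem prim_opK {f : α → ℕ → ℕ} (hf : Primrec₂ f) : Primrec₂ fun a D => opK (f a) D := by
  unfold opK
  exact Primrec.cond (Primrec.beq.comp hf Primrec.snd) Primrec.snd (Primrec.const 0)

theorem prim_opAnn {n : α → ℕ} {f g : α → ℕ → ℕ} (hn : Primrec n) (hf : Primrec₂ f)
    (hg : Primrec₂ g) : Primrec₂ fun a D => opAnn (n a) (f a) (g a) D := by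
  unfold opAnn
  refine prim_mk (α := α × ℕ) (hn.comp Primrec.fst) ?_
  have hD : Primrec fun q : (α × ℕ) × ℕ => q.1.2 := Primrec.snd.comp Primrec.fst
  have ha : Primrec fun q : (α × ℕ) × ℕ => q.1.1 := Primrec.fst.comp Primrec.fst
  exact Primrec.and.comp (prim_bit.comp hD Primrec.snd)
    (Primrec.or.comp (Primrec.not.comp (prim_bit.comp (hf.comp ha hD) Primrec.snd))
      (prim_bit.comp (hg.comp ha (hf.comp ha hD)) Primrec.snd))

theorem prim_opIter {n : α → ℕ} {f g : α → ℕ → ℕ} (hn : Primrec n) (hf : Primrec₂ f)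
    (hg : Primrec₂ g) : Primrec₂ fun a D => opIter (n a) (f a) (g a) D := by
  have ha : Primrec fun q : ((α × ℕ) × ℕ) × ℕ => q.1.1.1 :=
    Primrec.fst.comp (Primrec.fst.comp Primrec.fst)
  have hD' : Primrec fun q : ((α × ℕ) × ℕ) × ℕ => q.1.1.2 :=
    Primrec.snd.comp (Primrec.fst.comp Primrec.fst)
  have hv : Primrec fun q : ((α × ℕ) × ℕ) × ℕ => q.1.2 := Primrec.snd.comp Primrec.fst
  have hi2 : Primrec₂ fun (q : ((α × ℕ) × ℕ) × ℕ) (x : ℕ) => f q.1.1.1 x :=
    hf.comp (ha.comp Primrec.fst) Primrec.snd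
  have hi : Primrec fun q : ((α × ℕ) × ℕ) × ℕ => (f q.1.1.1)^[q.2] q.1.1.2 :=
    Primrec.nat_iterate Primrec.snd hD' hi2
  have hi3 : Primrec fun q : ((α × ℕ) × ℕ) × ℕ => g q.1.1.1 ((f q.1.1.1)^[q.2] q.1.1.2) :=
    hg.comp ha hi
  have hb1 : Primrec fun q : ((α × ℕ) × ℕ) × ℕ =>
      ((f q.1.1.1)^[q.2] q.1.1.2).testBit q.1.2 := prim_bit.comp hi hv
  have hb2 : Primrec fun q : ((α × ℕ) × ℕ) × ℕ =>
      (g q.1.1.1 ((f q.1.1.1)^[q.2] q.1.1.2)).testBit q.1.2 := prim_bit.comp hi3 hv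
  have hb3 : Primrec fun q : ((α × ℕ) × ℕ) × ℕ =>
      (!((f q.1.1.1)^[q.2] q.1.1.2).testBit q.1.2 ||
        (g q.1.1.1 ((f q.1.1.1)^[q.2] q.1.1.2)).testBit q.1.2) :=
    Primrec.or.comp (Primrec.not.comp hb1) hb2
  have hb4 : Primrec₂ fun (q : (α × ℕ) × ℕ) (i : ℕ) =>
      (!((f q.1.1)^[i] q.1.2).testBit q.2 || (g q.1.1 ((f q.1.1)^[i] q.1.2)).testBit q.2) := hb3
  have hD : Primrec fun q : (α × ℕ) × ℕ => q.1.2 := Primrec.snd.comp Primrec.fst
  have hb5 : Primrec fun q : (α × ℕ) × ℕ => allB (q.1.2 + 1) (fun i =>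
      !((f q.1.1)^[i] q.1.2).testBit q.2 || (g q.1.1 ((f q.1.1)^[i] q.1.2)).testBit q.2) :=
    prim_allB (Primrec.succ.comp hD) hb4
  have hb6 : Primrec fun q : (α × ℕ) × ℕ => (q.1.2.testBit q.2 && allB (q.1.2 + 1) (fun i =>
      !((f q.1.1)^[i] q.1.2).testBit q.2 || (g q.1.1 ((f q.1.1)^[i] q.1.2)).testBit q.2)) :=
    Primrec.and.comp (prim_bit.comp hD Primrec.snd) hb5
  have hb7 : Primrec₂ fun (q : α × ℕ) (v : ℕ) => (q.2.testBit v && allB (q.2 + 1) (fun i =>
      !((f q.1)^[i] q.2).testBit v || (g q.1 ((f q.1)^[i] q.2)).testBit v)) := hb6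
  have hb8 : Primrec fun q : α × ℕ => mk (n q.1) (fun v => (q.2.testBit v &&
      allB (q.2 + 1) (fun i => !((f q.1)^[i] q.2).testBit v ||
        (g q.1 ((f q.1)^[i] q.2)).testBit v))) := prim_mk (hn.comp Primrec.fst) hb7
  exact hb8

end

/-- The number of letters that is used for the word `l`. -/
def kk (l : List ℕ) : ℕ := List.foldl (fun a b => a + b) 0 l + 1

theorem prim_kk : Primrec kk := by
  refine Primrec.succ.comp ?_
  exact Primrec.list_foldl (h := fun _ (s : ℕ × ℕ) => s.1 + s.2) Primrec.id (Primrec.const 0)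
    (Primrec.nat_add.comp (Primrec.fst.comp Primrec.snd) (Primrec.snd.comp Primrec.snd))

theorem prim_step1 : Primrec₂ step1 := by
  unfold step1
  have hp : Primrec fun q : (ℕ × List (ℕ × ℕ)) × ℕ => q.1.1 := Primrec.fst.comp Primrec.fst
  have ho : Primrec fun q : (ℕ × List (ℕ × ℕ)) × ℕ => q.1.2 := Primrec.snd.comp Primrec.fst
  have hx : Primrec fun q : (ℕ × List (ℕ × ℕ)) × ℕ => q.2 := Primrec.snd
  have hc : ∀ c : ℕ, Primrec fun q : (ℕ × List (ℕ × ℕ)) × ℕ => (q.2 == c) := fun c =>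
    Primrec.beq.comp hx (Primrec.const c)
  refine Primrec.cond (Primrec.beq.comp hp (Primrec.const 0)) (Primrec.cond
    (Primrec.or.comp (Primrec.or.comp (hc 0) (hc 3)) (hc 4)) ?_ ?_) ?_
  · exact Primrec.pair (Primrec.succ.comp hx) ho
  · exact Primrec.pair (Primrec.const 0) (Primrec.list_cons.comp
      (Primrec.pair hx (Primrec.const 0)) ho)
  · exact Primrec.pair (Primrec.const 0) (Primrec.list_cons.comp
      (Primrec.pair (Primrec.nat_sub.comp hp (Primrec.const 1)) hx) ho)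

theorem prim_ok : Primrec₂ ok := by
  unfold ok
  have h1 : ∀ c : ℕ, Primrec fun q : (ℕ × ℕ) × ℕ => (q.1.1 == c) := fun c =>
    Primrec.beq.comp (Primrec.fst.comp Primrec.fst) (Primrec.const c)
  have h2 : ∀ c : ℕ, Primrec fun q : (ℕ × ℕ) × ℕ => (q.1.2 == c) := fun c =>
    Primrec.beq.comp (Primrec.snd.comp Primrec.fst) (Primrec.const c)
  have h3 : ∀ c : ℕ, Primrec fun q : (ℕ × ℕ) × ℕ => (q.2 == c) := fun c =>
    Primrec.beq.comp Primrec.snd (Primrec.const c)
  have n1 : Primrec fun q : (ℕ × ℕ) × ℕ => !(q.2 == 0) := Primrec.not.comp (h3 0)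
  have n2 : Primrec fun q : (ℕ × ℕ) × ℕ => !(q.2 == 0 || q.2 == 1) :=
    Primrec.not.comp (Primrec.or.comp (h3 0) (h3 1))
  have e1 : ∀ c d : ℕ, Primrec fun q : (ℕ × ℕ) × ℕ => (q.1.1 == c && (q.1.2 == d && !(q.2 == 0))) :=
    fun c d => Primrec.and.comp (h1 c) (Primrec.and.comp (h2 d) n1)
  have e2 : ∀ c : ℕ, Primrec fun q : (ℕ × ℕ) × ℕ =>
      (q.1.1 == c && (q.1.2 == 0 && !(q.2 == 0 || q.2 == 1))) :=
    fun c => Primrec.and.comp (h1 c) (Primrec.and.comp (h2 0) n2)
  exact Primrec.or.comp (Primrec.or.comp (Primrec.or.comp (Primrec.or.comp (Primrec.or.comp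
    (Primrec.or.comp (h1 0) (e1 1 0)) (e2 2)) (e1 3 0)) (e1 4 1)) (e2 5)) (e2 6)

theorem prim_step2 {α : Type} [Primcodable α] {n m : α → ℕ} (hn : Primrec n) (hm : Primrec m) :
    Primrec₂ fun (a : α) (s : (Bool × List (List ℕ)) × (ℕ × ℕ)) => step2 (n a) (m a) s.1 s.2 := by
  unfold step2
  let β := α × ((Bool × List (List ℕ)) × (ℕ × ℕ))
  have hb : Primrec fun q : β => q.2.1.1 := Primrec.fst.comp (Primrec.fst.comp Primrec.snd)
  have hs : Primrec fun q : β => q.2.1.2 := Primrec.snd.comp (Primrec.fst.comp Primrec.snd)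
  have ht : Primrec fun q : β => q.2.2 := Primrec.snd.comp Primrec.snd
  have hn' : Primrec fun q : β => n q.1 := hn.comp Primrec.fst
  have hm' : Primrec fun q : β => m q.1 := hm.comp Primrec.fst
  refine Primrec.pair (Primrec.and.comp hb (prim_ok.comp ht (Primrec.list_length.comp hs))) ?_
  unfold newSt
  have hc : ∀ c : ℕ, Primrec fun q : β => (q.2.2.1 == c) := fun c =>
    Primrec.beq.comp (Primrec.fst.comp ht) (Primrec.const c)
  have g0 : Primrec fun q : β => q.2.1.2.getD 0 [] :=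
    (Primrec.list_getD []).comp hs (Primrec.const 0)
  have g1 : Primrec fun q : β => q.2.1.2.getD 1 [] :=
    (Primrec.list_getD []).comp hs (Primrec.const 1)
  have f0 : Primrec₂ fun (q : β) (x : ℕ) => fn (q.2.1.2.getD 0 []) x :=
    prim_fn (g0.comp Primrec.fst) Primrec.snd
  have f1 : Primrec₂ fun (q : β) (x : ℕ) => fn (q.2.1.2.getD 1 []) x :=
    prim_fn (g1.comp Primrec.fst) Primrec.snd
  have t1 : Primrec fun q : β => q.2.1.2.tail := Primrec.list_tail.comp hs
  have t2 : Primrec fun q : β => q.2.1.2.tail.tail := Primrec.list_tail.comp t1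
  refine Primrec.cond (hc 0) ?_ (Primrec.cond (hc 1) ?_ (Primrec.cond (hc 2) ?_
    (Primrec.cond (hc 5) ?_ (Primrec.cond (hc 6) ?_ ?_))))
  · exact Primrec.list_cons.comp (prim_tab hm' (prim_opVar hn' (Primrec.snd.comp ht))) hs
  · exact Primrec.list_cons.comp (prim_tab hm' (prim_opNeg hn' f0)) t1
  · exact Primrec.list_cons.comp (prim_tab hm' (prim_opAnd hn' f0 f1)) t2
  · exact Primrec.list_cons.comp (prim_tab hm' (prim_opAnn hn' f0 f1)) t2
  · exact Primrec.list_cons.comp (prim_tab hm' (prim_opIter hn' f0 f1)) t2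
  · exact Primrec.list_cons.comp (prim_tab hm' (prim_opK f0)) t1

/-- The decision procedure. -/
def check (l : List ℕ) : Bool :=
  ((List.foldl step1 (0, []) l).1 == 0) &&
  ((List.foldl (step2 (2 ^ kk l) (2 ^ 2 ^ kk l)) (true, []) (List.foldl step1 (0, []) l).2).1 &&
  (((List.foldl (step2 (2 ^ kk l) (2 ^ 2 ^ kk l)) (true, [])
    (List.foldl step1 (0, []) l).2).2.length == 1) &&
  allB (2 ^ 2 ^ kk l) (fun D => fn ((List.foldl (step2 (2 ^ kk l) (2 ^ 2 ^ kk l)) (true, [])
    (List.foldl step1 (0, []) l).2).2.getD 0 []) D == D)))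

theorem prim_check : Primrec check := by
  unfold check
  have h1 : Primrec fun l : List ℕ => List.foldl step1 (0, []) l :=
    Primrec.list_foldl (h := fun _ (s : (ℕ × List (ℕ × ℕ)) × ℕ) => step1 s.1 s.2) Primrec.id
      (Primrec.const (0, [])) (prim_step1.comp (Primrec.fst.comp Primrec.snd)
        (Primrec.snd.comp Primrec.snd))
  have hn : Primrec fun l : List ℕ => 2 ^ kk l := prim_pow.comp (Primrec.const 2) prim_kk
  have hm : Primrec fun l : List ℕ => 2 ^ 2 ^ kk l := prim_pow.comp (Primrec.const 2) hn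
  have h2 : Primrec fun l : List ℕ => List.foldl (step2 (2 ^ kk l) (2 ^ 2 ^ kk l)) (true, [])
      (List.foldl step1 (0, []) l).2 :=
    Primrec.list_foldl (h := fun l (s : (Bool × List (List ℕ)) × (ℕ × ℕ)) =>
      step2 (2 ^ kk l) (2 ^ 2 ^ kk l) s.1 s.2) (Primrec.snd.comp h1)
      (Primrec.const (true, [])) (prim_step2 hn hm)
  refine Primrec.and.comp (Primrec.beq.comp (Primrec.fst.comp h1) (Primrec.const 0)) ?_
  refine Primrec.and.comp (Primrec.fst.comp h2) ?_
  refine Primrec.and.comp (Primrec.beq.comp (Primrec.list_length.comp (Primrec.snd.comp h2))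
    (Primrec.const 1)) ?_
  refine prim_allB hm ?_
  exact Primrec.beq.comp (prim_fn (((Primrec.list_getD []).comp (Primrec.snd.comp h2)
    (Primrec.const 0)).comp Primrec.fst) Primrec.snd) Primrec.snd

theorem low_of_word (k : ℕ) (φ : Form 1) (h : ∀ x ∈ word φ, x < k) : Low k φ := by
  induction φ with
  | var i => exact h i (by simp [word])
  | neg φ ih => exact ih fun x hx => h x (by simp [word, hx])
  | and φ ψ ih1 ih2 =>
    exact ⟨ih1 fun x hx => h x (by simp [word, hx]), ih2 fun x hx => h x (by simp [word, hx])⟩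
  | K a φ ih => exact ih fun x hx => h x (by simp [word, hx])
  | C G hG φ ih => exact ih fun x hx => h x (by simp [word, hx])
  | ann φ ψ ih1 ih2 =>
    exact ⟨ih1 fun x hx => h x (by simp [word, hx]), ih2 fun x hx => h x (by simp [word, hx])⟩
  | iter φ ψ ih1 ih2 =>
    exact ⟨ih1 fun x hx => h x (by simp [word, hx]), ih2 fun x hx => h x (by simp [word, hx])⟩

theorem lt_kk (l : List ℕ) (x : ℕ) (hx : x ∈ l) : x < kk l := by
  unfold kk
  have h : l.sum = List.foldl (fun a b => a + b) 0 l := List.sum_eq_foldl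
  rw [← h]
  exact Nat.lt_succ_of_le (List.single_le_sum (by simp) x hx)

theorem low_kk (φ : Form 1) : Low (kk (word φ)) φ :=
  low_of_word _ φ fun x hx => lt_kk _ x hx

theorem eval_word (n m : ℕ) (φ : Form 1) :
    List.foldl step1 (0, []) (word φ) = (0, (toks φ).reverse) ∧
    List.foldl (step2 n m) (true, []) (toks φ).reverse = (true, [tab m (ev n φ)]) := by
  constructor
  · have h := foldl_word φ [] []
    simpa using h
  · have h := foldl_toks n m φ [] []
    simpa using h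

theorem check_iff (l : List ℕ) : check l = true ↔ ValidWord 1 l := by
  constructor
  · intro h
    unfold check at h
    simp only [Bool.and_eq_true, beq_iff_eq] at h
    obtain ⟨h1, h2, h3, h4⟩ := h
    obtain ⟨φs, h5, h6⟩ := foldl_inv _ _ _ h2
    rw [h6] at h3 h4
    rw [List.length_map] at h3
    obtain ⟨φ, rfl⟩ : ∃ φ, φs = [φ] := List.length_eq_one_iff.1 h3
    have h7 := (unspell l).1
    rw [h1, h5] at h7
    have h8 : l = word φ := by
      rw [h7]
      simp [spell_toks]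
    refine ⟨φ, h8.symm, (finValid_iff (kk l) φ (by rw [h8]; exact low_kk φ)).2 ?_⟩
    intro D hD
    have h9 := (allB_iff _ _).1 h4 D hD
    simp only [List.map_cons, List.map_nil, List.getD_cons_zero, beq_iff_eq] at h9
    rwa [fn_tab _ hD] at h9
  · rintro ⟨φ, rfl, hφ⟩
    unfold check
    rw [(eval_word 0 0 φ).1]
    simp only [(eval_word _ _ φ).2]
    simp only [beq_self_eq_true, Bool.true_and, List.length_singleton, List.getD_cons_zero]
    rw [allB_iff]
    intro D hD
    rw [beq_iff_eq, fn_tab _ hD]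
    exact (finValid_iff (kk (word φ)) φ (low_kk φ)).1 hφ D hD

/-- For one agent the set of the finitely valid formulas is decidable. -/
theorem computable_one : ComputablePred (ValidWord 1) :=
  ComputablePred.computable_iff.2 ⟨check, prim_check.to_comp, funext fun l =>
    propext (check_iff l).symm⟩

end Pool.Agent.U788.PAL.One
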