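import Pool.Agent.Helper948.Erode.Reg

set_option autoImplicit false

/-! A universal source machine, and the reduction of every recursively enumerable predicate
(after the starting file Pool/Agent/Y552/Conj/Src.lean). -/

namespace Pool.Agent.U788.PAL

open Pool.Agent.Helper948.Erode
open Turing
open Turing.PartrecToTM2 (trNat)

/-- A fixed finite counter machine whose halting problem is that of the universal function. -/
theorem exists_sysU : ∃ (Q : Type) (_ : Finite Q) (M : Sys Q Bool) (q0 : Q) (N : ℕ → ℕ),
    Computable N ∧ ∀ n, (M.Halts (some q0) (ini (N n)) ↔ (u n).Dom) := by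
  classical
  obtain ⟨Λ, i1, i2, M, hM⟩ := exists_machine
  have fK : Finite PartrecToTM2.K' := by
    refine Finite.of_injective (fun k : PartrecToTM2.K' => match k with
      | .main => (0 : Fin 4) | .rev => 1 | .aux => 2 | .stack => 3) ?_
    intro a b h
    cases a <;> cases b <;> simp_all
  have fG : Finite (TM2to1.Γ' PartrecToTM2.K' (fun _ => PartrecToTM2.Γ')) :=
    inferInstanceAs (Finite (Bool × (PartrecToTM2.K' → Option PartrecToTM2.Γ')))
  let _ : Fintype (TM2to1.Γ' PartrecToTM2.K' (fun _ => PartrecToTM2.Γ')) := Fintype.ofFinite _
  let N : ℕ → ℕ := fun n => enc (sym true .cons :: (trNat n).reverse.map (sym false))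
  refine ⟨Λ, i2, sys M, default, N, ?_, ?_⟩
  · have h1 := digits_computable (fun a => kap (sym false a))
    have h2 : Computable (fun n : ℕ => ((trNat n).map (fun a => kap (sym false a))).reverse) :=
      Primrec.list_reverse.to_comp.comp h1
    have h3 := (foldr_computable
      (bas (TM2to1.Γ' PartrecToTM2.K' (fun _ => PartrecToTM2.Γ')))).comp h2
    have h4 : Computable (fun x : ℕ => kap (sym true .cons) +
        (bas (TM2to1.Γ' PartrecToTM2.K' (fun _ => PartrecToTM2.Γ'))) * x) :=
      (Primrec.nat_add.comp (Primrec.const _)
        (Primrec.nat_mul.comp (Primrec.const _) Primrec.id)).to_comp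
    refine (h4.comp h3).of_eq ?_
    intro n
    have e : ∀ l : List PartrecToTM2.Γ', enc (l.map (sym false)) =
        (l.map (fun a => kap (sym false a))).foldr (fun d acc => d +
          (bas (TM2to1.Γ' PartrecToTM2.K' (fun _ => PartrecToTM2.Γ'))) * acc) 0 := by
      intro l
      induction l with
      | nil => rfl
      | cons a l ih =>
        simp only [List.map_cons, enc, List.foldr_cons, ih]
    simp only [N, enc]
    rw [e, List.map_reverse]
  · intro n
    rw [← hM n]
    apply halts_iff
    constructor
    · have := rep_enc (sym true .cons :: (trNat n).reverse.map (sym false))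
      have e : (Tape.mk₁ (sym true PartrecToTM2.Γ'.cons :: (trNat n).reverse.map
          (sym false))).right₀ = ListBlank.mk (sym true .cons ::
            (trNat n).reverse.map (sym false)) := by
        unfold Tape.mk₁ Tape.mk₂
        rw [Tape.mk'_right₀]
      simp only [TM0.init, e]
      exact this
    · exact rep_zero

/-- every recursively enumerable predicate reduces to the domain of `u` -/
theorem re_reduces {α : Type} [Primcodable α] (P : α → Prop) (hP : REPred P) :
    ∃ g : α → ℕ, Computable g ∧ ∀ a, ((u (g a)).Dom ↔ P a) := by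
  have h1 : Partrec fun a : α => (Part.assert (P a) fun _ => Part.some ()).map fun _ => (0 : ℕ) :=
    hP.map (Computable.const 0).to₂
  have h2 : Nat.Partrec fun n : ℕ => ((Part.ofOption (Encodable.decode (α := α) n.unpair.1)).bind
      fun a => (Part.assert (P a) fun _ => Part.some ()).map fun _ => (0 : ℕ)) := by
    refine Partrec.nat_iff.1 ?_
    refine Partrec.bind ?_ (h1.comp Computable.snd)
    refine Computable.ofOption ?_
    exact Computable.decode.comp (Computable.fst.comp Computable.unpair)
  obtain ⟨c, hc⟩ := Nat.Partrec.Code.exists_code.1 h2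
  refine ⟨fun a => Encodable.encode (Nat.Partrec.Code.curry c (Encodable.encode a)), ?_, ?_⟩
  · exact Computable.encode.comp (Nat.Partrec.Code.primrec₂_curry.to_comp.comp
      (Computable.const c) Computable.encode)
  · intro a
    simp only [u, Denumerable.ofNat_encode, Nat.Partrec.Code.eval_curry, hc, Nat.unpair_pair,
      Encodable.encodek, Part.coe_some, Part.bind_some]
    constructor
    · rintro ⟨h, _⟩
      exact h
    · intro h
      exact ⟨h, trivial⟩

/-- every recursively enumerable predicate reduces to the halting problem of one register machine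
with one variable instruction -/
theorem exists_dmU : ∃ (Q : Type) (_ : Finite Q) (M : Sys Q Bool) (q0 : Q),
    ∀ (P : ℕ → Prop), REPred P → ∃ N : ℕ → ℕ, Computable N ∧
      ∀ n, ((dm M q0 (N n)).Halts (some .init, 0) ↔ P n) := by
  obtain ⟨Q, hQ, M, q0, N, hN, h⟩ := exists_sysU
  refine ⟨Q, hQ, M, q0, fun P hP => ?_⟩
  obtain ⟨g, hg, hgP⟩ := re_reduces P hP
  refine ⟨fun n => N (g n), hN.comp hg, fun n => ?_⟩
  rw [dm_init_halts, h, hgP]

end Pool.Agent.U788.PAL
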