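import Pool.Agent.U788.PAL.Compl
import Pool.Agent.U788.PAL.Src

set_option autoImplicit false

namespace Pool.Agent.U788.PAL

open Pool.Agent.Helper948.Erode

variable {m : ℕ}

/-- a family of formulas depending computably on a number -/
def CW (f : ℕ → Form m) : Prop := Computable (fun n => word (f n))

theorem CW.const (φ : Form m) : CW (fun _ => φ) := Computable.const _

theorem CW.neg {f : ℕ → Form m} (h : CW f) : CW (fun n => .neg (f n)) :=
  Computable.list_cons.comp (Computable.const 1) h

theorem CW.and {f g : ℕ → Form m} (h : CW f) (h' : CW g) : CW (fun n => .and (f n) (g n)) :=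
  Computable.list_cons.comp (Computable.const 2) (Computable.list_append.comp h h')

theorem CW.ann {f g : ℕ → Form m} (h : CW f) (h' : CW g) : CW (fun n => .ann (f n) (g n)) :=
  Computable.list_cons.comp (Computable.const 5) (Computable.list_append.comp h h')

theorem CW.iter {f g : ℕ → Form m} (h : CW f) (h' : CW g) : CW (fun n => .iter (f n) (g n)) :=
  Computable.list_cons.comp (Computable.const 6) (Computable.list_append.comp h h')

theorem CW.K {f : ℕ → Form m} (a : Fin m) (h : CW f) : CW (fun n => .K a (f n)) :=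
  Computable.list_cons.comp (Computable.const 3)
    (Computable.list_cons.comp (Computable.const (a : ℕ)) h)

theorem CW.C {f : ℕ → Form m} (G : Finset (Fin m)) (hG : G.Nonempty) (h : CW f) :
    CW (fun n => .C G hG (f n)) :=
  Computable.list_cons.comp (Computable.const 4)
    (Computable.list_cons.comp (Computable.const (∑ a ∈ G, 2 ^ (a : ℕ))) h)

theorem CW.imp {f g : ℕ → Form m} (h : CW f) (h' : CW g) : CW (fun n => .imp (f n) (g n)) :=
  (h.and h'.neg).neg

theorem CW.iff {f g : ℕ → Form m} (h : CW f) (h' : CW g) : CW (fun n => .iff (f n) (g n)) :=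
  (h.imp h').and (h'.imp h)

theorem CW.dia {f : ℕ → Form m} (a : Fin m) (h : CW f) : CW (fun n => .dia a (f n)) :=
  (h.neg.K a).neg

theorem CW.bigAnd {ι : Type} (l : List ι) {f : ℕ → ι → Form m} (h : ∀ i, CW (fun n => f n i)) :
    CW (fun n => .bigAnd (l.map (f n))) := by
  induction l with
  | nil => exact CW.const _
  | cons i l ih => exact (h i).and ih

theorem CW.allF {ι : Type} [Fintype ι] {f : ℕ → ι → Form m} (h : ∀ i, CW (fun n => f n i)) :
    CW (fun n => .allF (f n)) := CW.bigAnd _ h

section
variable {P J : Type} (R : Par m P J)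

/-- the first part of the word of `up` -/
def pre (c : Bool) : List ℕ := 2 :: (word (R.ch c) ++ [1, 3, (R.ag c : ℕ), 1])

theorem word_up_succ (c : Bool) (k : ℕ) :
    word (R.up c (k + 1)) = pre R c ++ word (R.up (!c) k) := by
  simp [Par.up, Form.dia, word, pre]

theorem up_pair (k : ℕ) : (fun x : List ℕ × List ℕ => (pre R true ++ x.2, pre R false ++ x.1))^[k]
    (word (R.ch true), word (R.ch false)) = (word (R.up true k), word (R.up false k)) := by
  induction k with
  | zero => rfl
  | succ k ih =>
    rw [Function.iterate_succ_apply', ih, word_up_succ, word_up_succ]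
    rfl

theorem CW.up {g : ℕ → ℕ} (hg : Computable g) (c : Bool) : CW (fun n => R.up c (g n)) := by
  have h1 : Primrec (fun k : ℕ => (word (R.up true k), word (R.up false k))) := by
    have h2 : Primrec₂ (fun (_ : ℕ) (x : List ℕ × List ℕ) =>
        (pre R true ++ x.2, pre R false ++ x.1)) :=
      (Primrec.pair
        (Primrec.list_append.comp (Primrec.const _) (Primrec.snd.comp Primrec.snd))
        (Primrec.list_append.comp (Primrec.const _) (Primrec.fst.comp Primrec.snd))).to₂
    refine (Primrec.nat_iterate Primrec.id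
      (Primrec.const (word (R.ch true), word (R.ch false))) h2).of_eq ?_
    intro k
    exact up_pair R k
  cases c with
  | true => exact (Primrec.fst.comp h1).to_comp.comp hg
  | false => exact (Primrec.snd.comp h1).to_comp.comp hg

theorem CW.al {g : ℕ → ℕ} (hg : Computable g) (c : Bool) (j : J) :
    CW (fun n => R.al c j (g n)) :=
  CW.dia _ ((CW.const _).and (CW.up R hg _))

end

section

variable {Q : Type} (M : Sys Q Bool) (q0 : Q)

theorem dm_vec (p : RS M) (t : Bool) (j : Bool × Bool) :
    (∀ n, (dm M q0 n).vec p t j = (dm M q0 0).vec p t j) ∨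
      (∀ n : ℕ, (dm M q0 n).vec p t j = (n : ℤ)) := by
  cases p with
  | init =>
    cases t with
    | true => exact Or.inl fun n => rfl
    | false =>
      obtain ⟨j1, j2⟩ := j
      cases j1 with
      | true => left; intro n; cases j2 <;> rfl
      | false =>
        cases j2 with
        | true => right; intro n; rfl
        | false => left; intro n; rfl
  | d1 q s => left; intro n; cases t <;> rfl
  | d2 q r s => left; intro n; cases t <;> rfl
  | e1 q r s => left; intro n; cases t <;> rfl
  | e2 q r s => left; intro n; cases t <;> rfl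

variable [Fintype (RS M)] [DecidableEq (RS M)] (R : Par m (RS M) (Bool × Bool))

theorem CW.cmp {N : ℕ → ℕ} (hN : Computable N) : CW (fun n => R.cmp (dm M q0 (N n))) := by
  unfold Par.cmp
  refine CW.allF fun c => CW.allF fun p => CW.allF fun t => CW.allF fun j => ?_
  refine CW.imp (CW.const _) (CW.iff (CW.al R ?_ _ _) (CW.al R ?_ _ _))
  · rcases dm_vec M q0 p t j with h | h
    · refine (Computable.const (-(dm M q0 0).vec p t j).toNat).of_eq ?_
      intro n; rw [h (N n)]
    · refine (Computable.const 0).of_eq ?_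
      intro n; rw [h]; omega
  · rcases dm_vec M q0 p t j with h | h
    · refine (Computable.const ((dm M q0 0).vec p t j).toNat).of_eq ?_
      intro n; rw [h (N n)]
    · refine hN.of_eq ?_
      intro n; rw [h]; rfl

theorem CW.loc (N : ℕ → ℕ) : CW (fun n => R.loc (dm M q0 (N n))) := by
  have h : ∀ n, R.loc (dm M q0 n) = R.loc (dm M q0 0) := fun n => rfl
  simp_rw [h]
  exact CW.const _

theorem CW.theta {N : ℕ → ℕ} (hN : Computable N) :
    CW (fun n => R.theta (dm M q0 (N n)) RS.init) := by
  unfold Par.theta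
  refine (CW.const _).and ((CW.const _).and ((CW.const _).and ?_))
  refine (CW.C _ _ ((CW.const _).imp (CW.loc M q0 R N))).and ?_
  refine ((CW.const _).iter (CW.C _ _ ((CW.const _).imp (CW.cmp M q0 R hN)))).and ?_
  exact CW.const _

end

/-- The main reduction. -/
theorem main (hm : 2 ≤ m) (P : ℕ → Prop) (hP : REPred (fun n => ¬ P n)) :
    ∃ f : ℕ → Form m, Computable (fun n => word (f n)) ∧ ∀ n, (P n ↔ FinValid (f n)) := by
  classical
  obtain ⟨Q, hQ, M, q0, hM⟩ := exists_dmU
  obtain ⟨N, hN, h⟩ := hM _ hP
  let _ : Fintype (RS M) := Fintype.ofFinite _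
  obtain ⟨e, he⟩ := exists_injective_nat (Letter (RS M) (Bool × Bool))
  let R : Par m (RS M) (Bool × Bool) :=
    { a := ⟨0, by omega⟩
      b := ⟨1, by omega⟩
      hab := by simp
      e := e
      he := he }
  refine ⟨fun n => .neg (R.theta (dm M q0 (N n)) RS.init), (CW.theta M q0 R hN).neg, ?_⟩
  intro n
  have h1 := h n
  constructor
  · intro hPn W _ K w hs
    exact (h1.1 (R.sound K _ _ w hs)) hPn
  · intro hv
    by_contra hPn
    obtain ⟨W, hW, K, w, hs⟩ := complete (dm M q0 (N n)) RS.init R (h1.2 hPn)
    exact hv W K w hs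

/-! ### The words determine the formulas -/

theorem word_aux (φ : Form m) : ∀ (ψ : Form m) (l l' : List ℕ), word φ ++ l = word ψ ++ l' →
    φ = ψ ∧ l = l' := by
  induction φ with
  | var i =>
    intro ψ l l' h
    cases ψ <;> simp [word] at h
    exact ⟨by rw [h.1], h.2⟩
  | neg φ ih =>
    intro ψ l l' h
    cases ψ <;> simp [word] at h
    obtain ⟨h1, h2⟩ := ih _ _ _ h
    exact ⟨by rw [h1], h2⟩
  | and φ φ' ih ih' =>
    intro ψ l l' h
    cases ψ <;> simp [word] at h
    obtain ⟨h1, h2⟩ := ih _ _ _ h
    obtain ⟨h3, h4⟩ := ih' _ _ _ h2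
    exact ⟨by rw [h1, h3], h4⟩
  | K a φ ih =>
    intro ψ l l' h
    cases ψ <;> simp [word] at h
    obtain ⟨h0, h⟩ := h
    obtain ⟨h1, h2⟩ := ih _ _ _ h
    exact ⟨by rw [h1, Fin.ext h0], h2⟩
  | C G hG φ ih =>
    intro ψ l l' h
    cases ψ with
    | C G' hG' ψ =>
      simp [word] at h
      obtain ⟨h0, h⟩ := h
      obtain ⟨h1, h2⟩ := ih _ _ _ h
      have h3 : G = G' := by
        have e : ∀ G : Finset (Fin m), ∑ a ∈ G, 2 ^ (a : ℕ) =
            ∑ i ∈ G.map Fin.valEmbedding, 2 ^ i := by
          intro G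
          rw [Finset.sum_map]
          rfl
        rw [e, e] at h0
        have := Finset.geomSum_injective (n := 2) le_rfl h0
        exact Finset.map_injective _ this
      subst h3
      exact ⟨by rw [h1], h2⟩
    | var | neg | and | K | ann | iter => simp [word] at h
  | ann φ φ' ih ih' =>
    intro ψ l l' h
    cases ψ <;> simp [word] at h
    obtain ⟨h1, h2⟩ := ih _ _ _ h
    obtain ⟨h3, h4⟩ := ih' _ _ _ h2
    exact ⟨by rw [h1, h3], h4⟩
  | iter φ φ' ih ih' =>
    intro ψ l l' h
    cases ψ <;> simp [word] at h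
    obtain ⟨h1, h2⟩ := ih _ _ _ h
    obtain ⟨h3, h4⟩ := ih' _ _ _ h2
    exact ⟨by rw [h1, h3], h4⟩

theorem word_injective : Function.Injective (word (m := m)) := by
  intro φ ψ h
  exact (word_aux φ ψ [] [] (by rw [h])).1

theorem hard (hm : 2 ≤ m) (P : ℕ → Prop) (hP : REPred (fun n => ¬ P n)) :
    ManyOneReducible P (ValidWord m) := by
  obtain ⟨f, hf, h⟩ := main hm P hP
  refine ⟨fun n => word (f n), hf, fun n => ?_⟩
  constructor
  · intro hn
    exact ⟨f n, rfl, (h n).1 hn⟩
  · rintro ⟨φ, h1, h2⟩
    rw [word_injective h1] at h2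
    exact (h n).2 h2

end Pool.Agent.U788.PAL
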