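import Pool.Agent.U788.PAL.Sound

set_option autoImplicit false

namespace Pool.Agent.U788.PAL

open Pool.Agent.Helper948.Erode

variable {m : ℕ} {P J : Type}

/-- parity -/
def par (n : ℕ) : Bool := decide (n % 2 = 0)

theorem par_succ (n : ℕ) : par (n + 1) = !par n := by
  unfold par
  rcases Nat.mod_two_eq_zero_or_one n with h | h
  · have : (n + 1) % 2 ≠ 0 := by omega
    simp [h, this]
  · have h1 : (n + 1) % 2 = 0 := by omega
    simp [h, h1]

section model

variable (M : DM P J) (p0 : P) (T : ℕ)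

/-- the run -/
def cfg (i : ℕ) : Option P × (J → ℤ) := M.st^[i] (some p0, 0)

/-- the counters as natural numbers -/
def kk (i : ℕ) (j : J) : ℕ := ((cfg M p0 i).2 j).toNat

theorem cfg_nonneg (i : ℕ) (j : J) : 0 ≤ (cfg M p0 i).2 j := by
  induction i generalizing j with
  | zero => exact le_rfl
  | succ i ih =>
    have : cfg M p0 (i + 1) = M.st (cfg M p0 i) := Function.iterate_succ_apply' _ _ _
    rw [this]
    exact M.st_nonneg _ ih j

theorem kk_cast (i : ℕ) (j : J) : (kk M p0 i j : ℤ) = (cfg M p0 i).2 j := by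
  have := cfg_nonneg M p0 i j
  unfold kk
  omega

theorem cfg_succ (i : ℕ) : cfg M p0 (i + 1) = M.st (cfg M p0 i) :=
  Function.iterate_succ_apply' _ _ _

/-- the worlds -/
abbrev Wd : Type := Fin T ⊕ (Σ q : Fin (T + 1) × J, Fin (kk M p0 q.1 q.2 + 1))

/-- edge labels -/
def E (i : ℕ) (j : J) (l : ℕ) : ℕ × Option J × ℕ := if l = 0 then (i, none, 0) else (i, some j, l)

def hub (c : Bool) (i : ℕ) : ℕ := if c = par i then i else i + 1

def lab (c : Bool) : Wd M p0 T → ℕ × Option J × ℕ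
  | .inl i => (hub c i, none, 0)
  | .inr ⟨q, l⟩ => if c = par (q.1 + l + 1) then E q.1 q.2 (l + 1) else E q.1 q.2 l

/-- truth of letters -/
def I : Letter P J → Wd M p0 T → Prop
  | .inl 0, .inl _ => False
  | .inl 0, .inr _ => True
  | .inl 1, .inl i => par i = true
  | .inl 1, .inr ⟨q, l⟩ => par (q.1 + l + 1) = true
  | .inl 2, .inl i => ∃ p, (cfg M p0 i).1 = some p ∧ M.br p (cfg M p0 i).2 = true
  | .inl 2, .inr _ => False
  | .inr (.inl _), .inl _ => False
  | .inr (.inl j), .inr ⟨q, l⟩ => q.2 = j ∧ (l : ℕ) = 0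
  | .inr (.inr (c, s)), .inl i => (cfg M p0 (hub c i)).1 = s
  | .inr (.inr _), .inr _ => False

variable (R : Par m P J)

/-- the model -/
def mdl : Model m (Wd M p0 T) where
  rel x v w := if x = R.a then lab M p0 T true v = lab M p0 T true w
    else if x = R.b then lab M p0 T false v = lab M p0 T false w else v = w
  equiv x := by
    constructor
    · intro v
      split_ifs <;> rfl
    · intro v w h
      split_ifs at h ⊢ <;> exact h.symm
    · intro u v w h1 h2
      split_ifs at h1 h2 ⊢ <;> exact h1.trans h2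
  val n w := ∃ x, R.e x = n ∧ I M p0 T x w

theorem mdl_rel (c : Bool) (v w : Wd M p0 T) :
    (mdl M p0 T R).rel (R.ag c) v w ↔ lab M p0 T c v = lab M p0 T c w := by
  cases c with
  | true => simp [mdl, Par.ag]
  | false => simp [mdl, Par.ag, R.hab.symm]

theorem mdl_V (x : Letter P J) (w : Wd M p0 T) : R.V (mdl M p0 T R) x w ↔ I M p0 T x w := by
  constructor
  · rintro ⟨y, hy, h⟩
    rw [← R.he hy]; exact h
  · intro h
    exact ⟨x, rfl, h⟩

theorem CH_inl (c : Bool) (i : Fin T) : ¬ R.CH (mdl M p0 T R) c (.inl i) := by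
  rintro ⟨h, _⟩
  rw [mdl_V] at h
  exact h

theorem CH_inr (c : Bool) (q : Fin (T + 1) × J) (l : Fin (kk M p0 q.1 q.2 + 1)) :
    R.CH (mdl M p0 T R) c (.inr ⟨q, l⟩) ↔ c = par (q.1 + l + 1) := by
  unfold Par.CH
  rw [mdl_V, mdl_V]
  change (True ∧ (par (q.1 + l + 1) = true ↔ c = true)) ↔ _
  cases c <;> cases par (q.1 + l + 1) <;> simp

theorem path_inl (c : Bool) (n : ℕ) (i : Fin T) : ¬ R.Path (mdl M p0 T R) c n (.inl i) := by
  intro h
  exact CH_inl M p0 T R c i (R.path_CH _ h)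

theorem E_succ_eq {i i' : ℕ} {j j' : J} {l l' : ℕ} (h : E i j (l + 1) = E i' j' l') :
    i' = i ∧ j' = j ∧ l' = l + 1 := by
  unfold E at h
  rw [if_neg (Nat.succ_ne_zero l)] at h
  split_ifs at h with h1
  · simp at h
  · simp only [Prod.mk.injEq, Option.some.injEq] at h
    exact ⟨h.1.symm, h.2.1.symm, h.2.2.symm⟩

theorem path_inr (n : ℕ) : ∀ (c : Bool) (q : Fin (T + 1) × J) (l : Fin (kk M p0 q.1 q.2 + 1)),
    R.Path (mdl M p0 T R) c n (.inr ⟨q, l⟩) ↔
      c = par (q.1 + l + 1) ∧ (l : ℕ) + n ≤ kk M p0 q.1 q.2 := by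
  induction n with
  | zero =>
    intro c q l
    rw [Par.Path, CH_inr]
    have := l.2
    constructor
    · intro h; exact ⟨h, by omega⟩
    · exact fun h => h.1
  | succ n ih =>
    intro c q l
    rw [Par.Path, CH_inr]
    refine and_congr_right (fun hc => ?_)
    constructor
    · rintro ⟨v, hv, hp⟩
      rw [mdl_rel] at hv
      rcases v with i | ⟨q', l'⟩
      · exact absurd hp (path_inl M p0 T R _ _ _)
      · rw [ih] at hp
        obtain ⟨h1, h2⟩ := hp
        simp only [lab] at hv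
        rw [if_pos hc, if_neg (by rw [← h1]; cases c <;> simp)] at hv
        obtain ⟨e1, e2, e3⟩ := E_succ_eq hv
        have e4 : kk M p0 q'.1 q'.2 = kk M p0 q.1 q.2 := by rw [e1, e2]
        omega
    · intro h
      refine ⟨.inr ⟨q, ⟨l + 1, by omega⟩⟩, ?_, ?_⟩
      · rw [mdl_rel]
        simp only [lab]
        rw [if_pos hc, if_neg]
        rw [hc, show (q.1 : ℕ) + ((l : ℕ) + 1) + 1 = (q.1 + l + 1) + 1 by ring,
          par_succ (q.1 + l + 1)]
        cases par (q.1 + l + 1) <;> simp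
      · rw [ih]
        simp only
        refine ⟨?_, by omega⟩
        rw [hc, show (q.1 : ℕ) + ((l : ℕ) + 1) + 1 = (q.1 + l + 1) + 1 by ring,
          par_succ (q.1 + l + 1)]

theorem par_hub (c : Bool) (i : ℕ) : par (hub c i) = c := by
  unfold hub
  split_ifs with h
  · exact h.symm
  · rw [par_succ]
    cases c <;> cases hh : par i <;> simp_all

theorem hub_le (c : Bool) (i : Fin T) : hub c i < T + 1 := by
  unfold hub
  have := i.2
  split_ifs <;> omega

theorem A_inl (c : Bool) (j : J) (n : ℕ) (i : Fin T) :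
    R.A (mdl M p0 T R) c j n (.inl i) ↔ n ≤ kk M p0 (hub c i) j := by
  constructor
  · rintro ⟨v, hv, hb, hp⟩
    rw [mdl_rel] at hv
    rw [mdl_V] at hb
    rcases v with i' | ⟨q', l'⟩
    · exact absurd hp (path_inl M p0 T R _ _ _)
    · rw [path_inr] at hp
      obtain ⟨hb1, hb2⟩ : q'.2 = j ∧ (l' : ℕ) = 0 := hb
      obtain ⟨h1, h2⟩ := hp
      simp only [lab] at hv
      rw [if_neg (by rw [← h1]; cases c <;> simp)] at hv
      unfold E at hv
      rw [if_pos hb2] at hv
      have h3 : hub c i = q'.1 := (Prod.mk.inj hv).1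
      rw [h3, ← hb1]
      omega
  · intro h
    refine ⟨.inr ⟨(⟨hub c i, hub_le T c i⟩, j), ⟨0, Nat.succ_pos _⟩⟩, ?_, ?_, ?_⟩
    · rw [mdl_rel]
      simp only [lab]
      rw [if_neg]
      · simp [E]
      · rw [Nat.add_zero, par_succ, par_hub]
        cases c <;> simp
    · rw [mdl_V]
      exact ⟨rfl, rfl⟩
    · rw [path_inr]
      simp only
      refine ⟨?_, by omega⟩
      rw [Nat.add_zero, par_succ, par_hub]

theorem St_inl (c : Bool) (s : Option P) (i : Fin T) :
    R.St (mdl M p0 T R) c s (.inl i) ↔ (cfg M p0 (hub c i)).1 = s := by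
  unfold Par.St
  rw [mdl_V]; rfl

theorem Lk_iff (w : Wd M p0 T) : R.Lk (mdl M p0 T R) w ↔ ∃ i, w = .inl i := by
  unfold Par.Lk
  rw [mdl_V]
  rcases w with i | ⟨q, l⟩
  · simp only [Sum.inl.injEq, exists_eq', iff_true]
    exact fun h => h
  · constructor
    · intro h
      exact absurd trivial h
    · rintro ⟨i, hi⟩
      exact absurd hi (by simp)

theorem Co_inl (c : Bool) (i : Fin T) : R.Co (mdl M p0 T R) c (.inl i) ↔ c = par i := by
  unfold Par.Co
  rw [mdl_V]
  change (par i = true ↔ c = true) ↔ _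
  cases c <;> cases par i <;> simp

theorem Po_inl (t : Bool) (i : Fin T) {p : P} (hp : (cfg M p0 i).1 = some p) :
    R.Po (mdl M p0 T R) t (.inl i) ↔ t = M.br p (cfg M p0 i).2 := by
  unfold Par.Po
  rw [mdl_V]
  have : I M p0 T (.inl 2) (.inl i) ↔ M.br p (cfg M p0 i).2 = true := by
    change (∃ p, (cfg M p0 i).1 = some p ∧ M.br p (cfg M p0 i).2 = true) ↔ _
    constructor
    · rintro ⟨p', h1, h2⟩
      rw [hp] at h1
      rw [Option.some.inj h1]; exact h2
    · intro h
      exact ⟨p, hp, h⟩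
  rw [this]
  cases t <;> cases M.br p (cfg M p0 i).2 <;> simp

theorem hub_self (i : ℕ) : hub (par i) i = i := if_pos rfl

theorem hub_not (i : ℕ) : hub (!par i) i = i + 1 := by
  unfold hub
  rw [if_neg]
  cases par i <;> simp

theorem step_cfg {i : ℕ} {p : P} (hp : (cfg M p0 i).1 = some p) :
    (cfg M p0 (i + 1)).1 = M.nxt p (M.br p (cfg M p0 i).2) ∧
    ∀ j, (cfg M p0 (i + 1)).2 j = (cfg M p0 i).2 j + M.vec p (M.br p (cfg M p0 i).2) j := by
  rw [cfg_succ]
  generalize cfg M p0 i = x at hp ⊢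
  obtain ⟨o, c⟩ := x
  simp only at hp
  subst hp
  exact ⟨rfl, fun j => rfl⟩

variable [Fintype P] [Fintype J] [DecidableEq P]

theorem loc_inl (hT : ∀ i < T, (cfg M p0 i).1 ≠ none) (i : Fin T) :
    R.Loc (mdl M p0 T R) M (.inl i) := by
  constructor
  · intro c
    exact ⟨_, (St_inl M p0 T R c _ i).2 rfl⟩
  · intro c s t hs ht
    rw [St_inl] at hs ht
    exact hs.symm.trans ht
  · intro c s hs v hv hl
    rw [Lk_iff] at hl
    obtain ⟨i', rfl⟩ := hl
    rw [St_inl] at hs ⊢
    rw [mdl_rel] at hv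
    have h3 : hub c i = hub c i' := (Prod.mk.inj hv).1
    rw [← h3]; exact hs
  · intro c hc hs
    rw [Co_inl] at hc
    rw [St_inl, hc, hub_self] at hs
    exact hT i i.2 hs
  · intro c p t hc hs ht
    rw [Co_inl] at hc
    rw [St_inl, hc, hub_self] at hs
    rw [Po_inl M p0 T R t i hs] at ht
    rw [St_inl, hc, hub_not, ht]
    exact (step_cfg M p0 hs).1
  · intro c p hc hs
    rw [Co_inl] at hc
    rw [St_inl, hc, hub_self] at hs
    rw [A_inl, hc, hub_self, mdl_V]
    have h1 := kk_cast M p0 i (M.reg p)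
    constructor
    · rintro ⟨p', h2, h3⟩
      rw [hs] at h2
      rw [← Option.some.inj h2] at h3
      simp only [DM.br, decide_eq_true_eq] at h3
      omega
    · intro h2
      refine ⟨p, hs, ?_⟩
      simp only [DM.br, decide_eq_true_eq]
      omega
  · intro c j
    rw [A_inl]
    exact Nat.zero_le _

theorem cmp_inl (n : ℕ) (i : Fin T) : R.Cmp (mdl M p0 T R) M n (.inl i) := by
  intro c p t j hc hs ht
  rw [Co_inl] at hc
  rw [St_inl, hc, hub_self] at hs
  rw [Po_inl M p0 T R t i hs] at ht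
  rw [A_inl, A_inl, hc, hub_self, hub_not]
  have h1 := (step_cfg M p0 hs).2 j
  rw [← ht, ← kk_cast, ← kk_cast] at h1
  omega

theorem complete (h : M.Halts (some p0, 0)) :
    ∃ (W : Type) (_ : Finite W) (N : Model m W) (w : W), Sat N (R.theta M p0) Set.univ w := by
  classical
  have hex : ∃ k, (cfg M p0 k).1 = none := h
  obtain ⟨T, hT, hmin⟩ : ∃ T, (cfg M p0 T).1 = none ∧ ∀ i < T, (cfg M p0 i).1 ≠ none :=
    ⟨Nat.find hex, Nat.find_spec hex, fun i hi => Nat.find_min hex hi⟩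
  have hT0 : 0 < T := by
    rcases Nat.eq_zero_or_pos T with h0 | h0
    · subst h0
      exact absurd hT (by simp [cfg])
    · exact h0
  refine ⟨Wd M p0 T, inferInstance, mdl M p0 T R, .inl ⟨0, hT0⟩, ?_⟩
  rw [R.sat_theta]
  refine ⟨(Lk_iff M p0 T R _).2 ⟨_, rfl⟩, ?_, ?_, ?_, ?_, ?_⟩
  · rw [St_inl]; rfl
  · intro j hj
    rw [A_inl] at hj
    have : kk M p0 (hub true ((⟨0, hT0⟩ : Fin T) : ℕ)) j = 0 := rfl
    rw [this] at hj
    omega
  · intro v _ hv
    obtain ⟨i, rfl⟩ := (Lk_iff M p0 T R v).1 hv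
    exact loc_inl M p0 T R hmin i
  · intro n v _ hv
    obtain ⟨i, rfl⟩ := (Lk_iff M p0 T R v).1 hv
    exact cmp_inl M p0 T R n i
  · have key : ∀ (i : ℕ) (hi : i < T), Relation.TransGen (R.stp (mdl M p0 T R)
        {v | R.Lk (mdl M p0 T R) v}) (.inl ⟨0, hT0⟩) (.inl ⟨i, hi⟩) := by
      intro i
      induction i with
      | zero =>
        intro hi
        refine Relation.TransGen.single ⟨(Lk_iff M p0 T R _).2 ⟨_, rfl⟩,
          (Lk_iff M p0 T R _).2 ⟨_, rfl⟩, R.ag true, R.ag_mem true, ?_⟩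
        exact ((mdl M p0 T R).equiv _).refl _
      | succ i ih =>
        intro hi
        refine (ih (by omega)).tail ⟨(Lk_iff M p0 T R _).2 ⟨_, rfl⟩,
          (Lk_iff M p0 T R _).2 ⟨_, rfl⟩, R.ag (par (i + 1)), R.ag_mem _, ?_⟩
        rw [mdl_rel]
        simp only [lab, hub_self]
        rw [par_succ, hub_not]
    refine ⟨.inl ⟨T - 1, by omega⟩, key _ _, !par (T - 1), ?_⟩
    rw [St_inl, hub_not]
    have : T - 1 + 1 = T := by omega
    rw [this]
    exact hT

end model

end Pool.Agent.U788.PAL
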