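import Mathlib

set_option autoImplicit false

namespace Pool.Agent.U788.PAL

/-- Formulas of the language with agents `0, …, m-1` and proposition letters `p_0, p_1, …`:
letters, negation, conjunction, knowledge `K_a φ`, common knowledge `C_G φ` of a nonempty group
`G`, public announcement `[!φ]ψ` and iterated public announcement `[(!φ)*]ψ`. -/
inductive Form (m : ℕ) : Type
  | var (i : ℕ) : Form m
  | neg (φ : Form m) : Form m
  | and (φ ψ : Form m) : Form m
  | K (a : Fin m) (φ : Form m) : Form m
  | C (G : Finset (Fin m)) (hG : G.Nonempty) (φ : Form m) : Form m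
  | ann (φ ψ : Form m) : Form m
  | iter (φ ψ : Form m) : Form m

/-- An epistemic model with set of worlds `W`: an equivalence relation for each of the agents
`0, …, m-1` and a valuation. -/
structure Model (m : ℕ) (W : Type) where
  rel : Fin m → W → W → Prop
  equiv : ∀ a, Equivalence (rel a)
  val : ℕ → W → Prop

/-- `Sat M φ D w` is the truth of `φ` at the world `w ∈ D` in the submodel of `M` on the set `D` of
worlds. Announcing `φ` in the submodel on `E` leads to the submodel on `{v ∈ E | φ is true at v}`,
and iterating this `n` times from `D` gives the set of worlds of `(M|D)|φ^n`. -/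
def Sat {m : ℕ} {W : Type} (M : Model m W) : Form m → Set W → W → Prop
  | .var i, _, w => M.val i w
  | .neg φ, D, w => ¬ Sat M φ D w
  | .and φ ψ, D, w => Sat M φ D w ∧ Sat M ψ D w
  | .K a φ, D, w => ∀ v ∈ D, M.rel a w v → Sat M φ D v
  | .C G _ φ, D, w => ∀ v, Relation.TransGen
      (fun x y => x ∈ D ∧ y ∈ D ∧ ∃ a ∈ G, M.rel a x y) w v → Sat M φ D v
  | .ann φ ψ, D, w => Sat M φ D w → Sat M ψ {v | v ∈ D ∧ Sat M φ D v} w
  | .iter φ ψ, D, w => ∀ n : ℕ, w ∈ (fun E : Set W => {v | v ∈ E ∧ Sat M φ E v})^[n] D →
      Sat M ψ ((fun E : Set W => {v | v ∈ E ∧ Sat M φ E v})^[n] D) w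

/-- `φ` is finitely valid: true at every world of every finite epistemic model. -/
def FinValid {m : ℕ} (φ : Form m) : Prop :=
  ∀ (W : Type) [Finite W] (M : Model m W) (w : W), Sat M φ Set.univ w

/-- A formula written as a word of natural numbers in Polish notation: the tags `0, …, 6` stand
for the seven constructors; the letter `p_i` is `0 i`, the operator `K_a` is `3 a` and the operator
`C_G` is `4 g` where `g = ∑_{a ∈ G} 2^a`. -/
def word {m : ℕ} : Form m → List ℕ
  | .var i => [0, i]
  | .neg φ => 1 :: word φ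
  | .and φ ψ => 2 :: (word φ ++ word ψ)
  | .K a φ => 3 :: (a : ℕ) :: word φ
  | .C G _ φ => 4 :: (∑ a ∈ G, 2 ^ (a : ℕ)) :: word φ
  | .ann φ ψ => 5 :: (word φ ++ word ψ)
  | .iter φ ψ => 6 :: (word φ ++ word ψ)

/-- The set of the words of the finitely valid formulas with `m` agents. -/
def ValidWord (m : ℕ) (l : List ℕ) : Prop := ∃ φ : Form m, word φ = l ∧ FinValid φ

end Pool.Agent.U788.PAL
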