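import Pool.Agent.U788.PAL.Defs

set_option autoImplicit false

/-! The case of one agent: truth of a formula at a world depends only on the set of the valuations
(of the letters of the formula) realised in the class of the world.  Such sets are coded by
numbers, and the semantic value of a formula is a function on these numbers. -/

namespace Pool.Agent.U788.PAL.One

/-- The number with binary digits `p 0, …, p (N-1)`. -/
def mk (N : ℕ) (p : ℕ → Bool) : ℕ :=
  Nat.rec 0 (fun n s => s + bif p n then 2 ^ n else 0) N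

theorem mk_zero (p : ℕ → Bool) : mk 0 p = 0 := rfl

theorem mk_succ (N : ℕ) (p : ℕ → Bool) :
    mk (N + 1) p = mk N p + bif p N then 2 ^ N else 0 := rfl

theorem mk_lt (N : ℕ) (p : ℕ → Bool) : mk N p < 2 ^ N := by
  induction N with
  | zero => simp [mk_zero]
  | succ n ih =>
    rw [mk_succ, pow_succ]
    cases p n <;> simp <;> omega

theorem testBit_mk (N : ℕ) (p : ℕ → Bool) (v : ℕ) :
    (mk N p).testBit v = (decide (v < N) && p v) := by
  induction N with
  | zero => simp [mk_zero]
  | succ n ih =>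
    have hlt := mk_lt n p
    rw [mk_succ]
    rcases lt_trichotomy v n with h | h | h
    · have h1 : v < n + 1 := by omega
      cases hp : p n
      · simp [ih, h, h1]
      · rw [cond_true, add_comm, Nat.testBit_two_pow_add_gt h, ih]
        simp [h, h1]
    · subst h
      have h2 : (mk v p).testBit v = false := Nat.testBit_lt_two_pow hlt
      cases hp : p v
      · simp [h2]
      · rw [cond_true, add_comm, Nat.testBit_two_pow_add_eq, h2]
        simp
    · have h1 : ¬ v < n + 1 := by omega
      have h3 : mk n p + (bif p n then 2 ^ n else 0) < 2 ^ v := by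
        have h4 : (2 : ℕ) ^ (n + 1) ≤ 2 ^ v := Nat.pow_le_pow_right (by norm_num) (by omega)
        rw [pow_succ] at h4
        cases p n <;> simp <;> omega
      rw [Nat.testBit_lt_two_pow h3]
      simp [h1]

theorem le_of_bits {x y : ℕ} (h : ∀ v, x.testBit v = true → y.testBit v = true) : x ≤ y := by
  have h1 : x &&& y = x := by
    apply Nat.eq_of_testBit_eq
    intro v
    rw [Nat.testBit_and]
    cases hx : x.testBit v
    · simp
    · simp [h v hx]
  rw [← h1]
  exact Nat.and_le_right

/-- All of `p 0, …, p (n-1)`. -/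
def allB (n : ℕ) (p : ℕ → Bool) : Bool := Nat.rec true (fun i b => b && p i) n

theorem allB_iff (n : ℕ) (p : ℕ → Bool) : allB n p = true ↔ ∀ i < n, p i = true := by
  induction n with
  | zero => simp [allB]
  | succ n ih =>
    have h : allB (n + 1) p = (allB n p && p n) := rfl
    rw [h, Bool.and_eq_true, ih]
    constructor
    · rintro ⟨h1, h2⟩ i hi
      rcases Nat.lt_succ_iff_lt_or_eq.1 hi with h3 | h3
      · exact h1 i h3
      · rw [h3]; exact h2
    · intro h1
      exact ⟨fun i hi => h1 i (by omega), h1 n (by omega)⟩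

def opVar (N i D : ℕ) : ℕ := mk N (fun v => D.testBit v && v.testBit i)
def opNeg (N : ℕ) (f : ℕ → ℕ) (D : ℕ) : ℕ := mk N (fun v => D.testBit v && !(f D).testBit v)
def opAnd (N : ℕ) (f g : ℕ → ℕ) (D : ℕ) : ℕ :=
  mk N (fun v => (f D).testBit v && (g D).testBit v)
def opK (f : ℕ → ℕ) (D : ℕ) : ℕ := bif f D == D then D else 0
def opAnn (N : ℕ) (f g : ℕ → ℕ) (D : ℕ) : ℕ :=
  mk N (fun v => D.testBit v && (!(f D).testBit v || (g (f D)).testBit v))
def opIter (N : ℕ) (f g : ℕ → ℕ) (D : ℕ) : ℕ :=
  mk N (fun v => D.testBit v && allB (D + 1) (fun n => !(f^[n] D).testBit v ||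
    (g (f^[n] D)).testBit v))

/-- The semantic value of a formula as a function on numbers. -/
def ev (N : ℕ) : Form 1 → ℕ → ℕ
  | .var i => opVar N i
  | .neg φ => opNeg N (ev N φ)
  | .and φ ψ => opAnd N (ev N φ) (ev N ψ)
  | .K _ φ => opK (ev N φ)
  | .C _ _ φ => opK (ev N φ)
  | .ann φ ψ => opAnn N (ev N φ) (ev N ψ)
  | .iter φ ψ => opIter N (ev N φ) (ev N ψ)

theorem opK_bits {f : ℕ → ℕ} {D v : ℕ} (h : (opK f D).testBit v = true) :
    D.testBit v = true := by
  unfold opK at h
  cases hc : (f D == D)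
  · rw [hc] at h; simp at h
  · rw [hc] at h; simpa using h

theorem ev_bits (N : ℕ) (φ : Form 1) (D v : ℕ) (h : (ev N φ D).testBit v = true) :
    D.testBit v = true := by
  induction φ generalizing v with
  | var i => simp only [ev, opVar, testBit_mk, Bool.and_eq_true] at h; exact h.2.1
  | neg φ ih => simp only [ev, opNeg, testBit_mk, Bool.and_eq_true] at h; exact h.2.1
  | and φ ψ ih1 ih2 =>
    simp only [ev, opAnd, testBit_mk, Bool.and_eq_true] at h
    exact ih1 v h.2.1
  | K a φ ih => exact opK_bits h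
  | C G hG φ ih => exact opK_bits h
  | ann φ ψ ih1 ih2 => simp only [ev, opAnn, testBit_mk, Bool.and_eq_true] at h; exact h.2.1
  | iter φ ψ ih1 ih2 => simp only [ev, opIter, testBit_mk, Bool.and_eq_true] at h; exact h.2.1

theorem ev_le (N : ℕ) (φ : Form 1) (D : ℕ) : ev N φ D ≤ D := le_of_bits (ev_bits N φ D)

theorem iter_le {f : ℕ → ℕ} (hf : ∀ x, f x ≤ x) (n D : ℕ) : f^[n] D ≤ D := by
  induction n with
  | zero => exact le_rfl
  | succ n ih => rw [Function.iterate_succ_apply']; exact (hf _).trans ih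

/-- A non-increasing function stabilises in at most `D` steps. -/
theorem iter_stab {f : ℕ → ℕ} (hf : ∀ x, f x ≤ x) (D n : ℕ) :
    ∃ m < D + 1, f^[n] D = f^[m] D := by
  by_cases h : ∃ m < D + 1, f^[m + 1] D = f^[m] D
  · obtain ⟨m, hm, he⟩ := h
    rcases lt_or_ge n (D + 1) with h1 | h1
    · exact ⟨n, h1, rfl⟩
    · refine ⟨m, hm, ?_⟩
      have h2 : ∀ j, f^[m + j] D = f^[m] D := by
        intro j
        induction j with
        | zero => rfl
        | succ j ih =>
          rw [← add_assoc, Function.iterate_succ_apply', ih, ← Function.iterate_succ_apply' f m D]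
          exact he
      have h3 := h2 (n - m)
      rwa [Nat.add_sub_cancel' (by omega)] at h3
  · exfalso
    push Not at h
    have h2 : ∀ j ≤ D + 1, f^[j] D + j ≤ D := by
      intro j
      induction j with
      | zero => intro _; simp
      | succ j ih =>
        intro hj
        have h3 := ih (by omega)
        have h4 := h j (by omega)
        have h5 : f^[j + 1] D ≤ f^[j] D := by
          rw [Function.iterate_succ_apply']; exact hf _
        omega
    have := h2 (D + 1) le_rfl
    omega

/-- All letters of the formula are below `k`. -/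
def Low (k : ℕ) : Form 1 → Prop
  | .var i => i < k
  | .neg φ => Low k φ
  | .and φ ψ => Low k φ ∧ Low k ψ
  | .K _ φ => Low k φ
  | .C _ _ φ => Low k φ
  | .ann φ ψ => Low k φ ∧ Low k ψ
  | .iter φ ψ => Low k φ ∧ Low k ψ

section semantics

variable {W : Type} (M : Model 1 W) (k : ℕ)

open Classical in
/-- The valuation at a world, as a number. -/
noncomputable def vl (u : W) : ℕ := mk k (fun i => decide (M.val i u))

theorem vl_lt (u : W) : vl M k u < 2 ^ k := mk_lt _ _

open Classical in
/-- The set of the valuations in the class of `w` in `D`, as a number. -/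
noncomputable def cls (D : Set W) (w : W) : ℕ :=
  mk (2 ^ k) (fun v => decide (∃ u ∈ D, M.rel 0 w u ∧ vl M k u = v))

theorem cls_bit (D : Set W) (w : W) (v : ℕ) :
    (cls M k D w).testBit v = true ↔ ∃ u ∈ D, M.rel 0 w u ∧ vl M k u = v := by
  unfold cls
  rw [testBit_mk]
  simp only [Bool.and_eq_true, decide_eq_true_eq]
  constructor
  · exact fun h => h.2
  · rintro ⟨u, hu, h1, rfl⟩
    exact ⟨vl_lt M k u, u, hu, h1, rfl⟩

theorem cls_self {D : Set W} {w : W} (hw : w ∈ D) : (cls M k D w).testBit (vl M k w) = true :=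
  (cls_bit M k D w _).2 ⟨w, hw, (M.equiv 0).refl w, rfl⟩

theorem cls_congr (D : Set W) {w u : W} (h : M.rel 0 w u) : cls M k D u = cls M k D w := by
  apply Nat.eq_of_testBit_eq
  intro v
  rw [Bool.eq_iff_iff, cls_bit, cls_bit]
  constructor
  · rintro ⟨x, hx, h1, h2⟩
    exact ⟨x, hx, (M.equiv 0).trans h h1, h2⟩
  · rintro ⟨x, hx, h1, h2⟩
    exact ⟨x, hx, (M.equiv 0).trans ((M.equiv 0).symm h) h1, h2⟩

/-- The formula has the value `f` in the model. -/
def Good (φ : Form 1) : Prop :=
  ∀ (D : Set W) (w : W), w ∈ D →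
    (Sat M φ D w ↔ (ev (2 ^ k) φ (cls M k D w)).testBit (vl M k w) = true)

variable {M k}

theorem cls_filter {φ : Form 1} (h : Good M k φ) (D : Set W) (w : W) :
    cls M k {v | v ∈ D ∧ Sat M φ D v} w = ev (2 ^ k) φ (cls M k D w) := by
  apply Nat.eq_of_testBit_eq
  intro v
  rw [Bool.eq_iff_iff, cls_bit]
  constructor
  · rintro ⟨u, ⟨hu, h1⟩, h2, rfl⟩
    have h3 := (h D u hu).1 h1
    rwa [cls_congr M k D h2] at h3
  · intro h1
    obtain ⟨u, hu, h2, rfl⟩ := (cls_bit M k D w v).1 (ev_bits _ _ _ _ h1)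
    refine ⟨u, ⟨hu, (h D u hu).2 ?_⟩, h2, rfl⟩
    rwa [cls_congr M k D h2]

theorem good_K {φ : Form 1} (h : Good M k φ) (D : Set W) (w : W) (hw : w ∈ D) :
    (∀ v ∈ D, M.rel 0 w v → Sat M φ D v) ↔
      (opK (ev (2 ^ k) φ) (cls M k D w)).testBit (vl M k w) = true := by
  unfold opK
  constructor
  · intro h1
    have h2 : ev (2 ^ k) φ (cls M k D w) = cls M k D w := by
      apply Nat.eq_of_testBit_eq
      intro v
      rw [Bool.eq_iff_iff]
      constructor
      · exact ev_bits _ _ _ _
      · intro h3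
        obtain ⟨u, hu, h4, rfl⟩ := (cls_bit M k D w v).1 h3
        have h5 := (h D u hu).1 (h1 u hu h4)
        rwa [cls_congr M k D h4] at h5
    rw [h2]
    simp [cls_self M k hw]
  · intro h1 v hv h2
    cases hc : (ev (2 ^ k) φ (cls M k D w) == cls M k D w)
    · rw [hc] at h1; simp at h1
    · rw [hc] at h1
      have h3 : ev (2 ^ k) φ (cls M k D w) = cls M k D w := by simpa using hc
      refine (h D v hv).2 ?_
      rw [cls_congr M k D h2, h3]
      exact (cls_bit M k D w _).2 ⟨v, hv, h2, rfl⟩

theorem good_iter {φ : Form 1} (h : Good M k φ) (D : Set W) (w : W) (n : ℕ) :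
    cls M k ((fun E : Set W => {v | v ∈ E ∧ Sat M φ E v})^[n] D) w =
      (ev (2 ^ k) φ)^[n] (cls M k D w) := by
  induction n with
  | zero => rfl
  | succ n ih =>
    rw [Function.iterate_succ_apply', Function.iterate_succ_apply', cls_filter h, ih]

theorem mem_iter {φ : Form 1} (h : Good M k φ) (D : Set W) (w : W) (hw : w ∈ D) (n : ℕ) :
    w ∈ (fun E : Set W => {v | v ∈ E ∧ Sat M φ E v})^[n] D ↔
      ((ev (2 ^ k) φ)^[n] (cls M k D w)).testBit (vl M k w) = true := by
  induction n with
  | zero => exact ⟨fun _ => cls_self M k hw, fun _ => hw⟩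
  | succ n ih =>
    rw [Function.iterate_succ_apply', Function.iterate_succ_apply']
    constructor
    · rintro ⟨h1, h2⟩
      have h3 := (h _ w h1).1 h2
      rwa [good_iter h] at h3
    · intro h1
      have h2 := ih.2 (ev_bits _ _ _ _ h1)
      refine ⟨h2, (h _ w h2).2 ?_⟩
      rwa [good_iter h]

theorem good (φ : Form 1) (hφ : Low k φ) : Good M k φ := by
  induction φ with
  | var i =>
    intro D w hw
    have h1 : i < k := hφ
    have h2 : vl M k w < 2 ^ k := vl_lt M k w
    simp only [ev, opVar, testBit_mk, cls_self M k hw, h2, Sat]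
    unfold vl
    rw [testBit_mk]
    simp [h1]
  | neg φ ih =>
    intro D w hw
    have h2 : vl M k w < 2 ^ k := vl_lt M k w
    have h3 := ih hφ D w hw
    simp only [ev, opNeg, testBit_mk, cls_self M k hw, h2, Sat, h3]
    simp
  | and φ ψ ih1 ih2 =>
    intro D w hw
    have h2 : vl M k w < 2 ^ k := vl_lt M k w
    have h3 := ih1 hφ.1 D w hw
    have h4 := ih2 hφ.2 D w hw
    simp only [ev, opAnd, testBit_mk, h2, Sat, h3, h4]
    simp
  | K a φ ih =>
    intro D w hw
    have ha : a = 0 := Subsingleton.elim _ _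
    subst ha
    exact good_K (ih hφ) D w hw
  | C G hG φ ih =>
    intro D w hw
    refine Iff.trans ?_ (good_K (ih hφ) D w hw)
    obtain ⟨a, ha⟩ := hG
    constructor
    · intro h1 v hv h2
      refine h1 v (Relation.TransGen.single ⟨hw, hv, a, ha, ?_⟩)
      have ha : a = 0 := Subsingleton.elim _ _
      rw [ha]; exact h2
    · intro h1 v h2
      have h3 : v ∈ D ∧ M.rel 0 w v := by
        induction h2 with
        | single h =>
          obtain ⟨_, h4, b, _, h5⟩ := h
          have hb : b = 0 := Subsingleton.elim _ _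
          rw [hb] at h5
          exact ⟨h4, h5⟩
        | tail _ h ih =>
          obtain ⟨_, h4, b, _, h5⟩ := h
          have hb : b = 0 := Subsingleton.elim _ _
          rw [hb] at h5
          exact ⟨h4, (M.equiv 0).trans ih.2 h5⟩
      exact h1 v h3.1 h3.2
  | ann φ ψ ih1 ih2 =>
    intro D w hw
    have h2 : vl M k w < 2 ^ k := vl_lt M k w
    have h3 := ih1 hφ.1 D w hw
    show (Sat M φ D w → Sat M ψ {v | v ∈ D ∧ Sat M φ D v} w) ↔ _
    simp only [ev, opAnn, testBit_mk, cls_self M k hw, h2]
    by_cases h4 : Sat M φ D w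
    · have h5 := ih2 hφ.2 {v | v ∈ D ∧ Sat M φ D v} w ⟨hw, h4⟩
      rw [cls_filter (ih1 hφ.1)] at h5
      have h6 := h3.1 h4
      simp only [h4, true_imp_iff, h5, h6]
      simp
    · have h6 : (ev (2 ^ k) φ (cls M k D w)).testBit (vl M k w) = false := by
        rw [← Bool.not_eq_true]; exact fun h => h4 (h3.2 h)
      simp only [h4, false_imp_iff, h6]
      simp
  | iter φ ψ ih1 ih2 =>
    intro D w hw
    have h2 : vl M k w < 2 ^ k := vl_lt M k w
    show (∀ n : ℕ, w ∈ (fun E : Set W => {v | v ∈ E ∧ Sat M φ E v})^[n] D →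
      Sat M ψ ((fun E : Set W => {v | v ∈ E ∧ Sat M φ E v})^[n] D) w) ↔ _
    have h3 : ∀ n : ℕ, (w ∈ (fun E : Set W => {v | v ∈ E ∧ Sat M φ E v})^[n] D →
        Sat M ψ ((fun E : Set W => {v | v ∈ E ∧ Sat M φ E v})^[n] D) w) ↔
        (!((ev (2 ^ k) φ)^[n] (cls M k D w)).testBit (vl M k w) ||
          (ev (2 ^ k) ψ ((ev (2 ^ k) φ)^[n] (cls M k D w))).testBit (vl M k w)) = true := by
      intro n
      by_cases h4 : w ∈ (fun E : Set W => {v | v ∈ E ∧ Sat M φ E v})^[n] D
      · have h5 := ih2 hφ.2 _ w h4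
        rw [good_iter (ih1 hφ.1)] at h5
        have h6 := (mem_iter (ih1 hφ.1) D w hw n).1 h4
        rw [h6]
        simp only [h4, true_imp_iff, h5]
        simp
      · have h6 : ((ev (2 ^ k) φ)^[n] (cls M k D w)).testBit (vl M k w) = false := by
          rw [← Bool.not_eq_true]
          exact fun h => h4 ((mem_iter (ih1 hφ.1) D w hw n).2 h)
        rw [h6]
        simp only [h4, false_imp_iff]
        simp
    rw [forall_congr' h3]
    simp only [ev, opIter, testBit_mk, cls_self M k hw, h2]
    simp only [decide_true, Bool.true_and]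
    rw [allB_iff]
    constructor
    · exact fun h n _ => h n
    · intro h n
      obtain ⟨m, hm, he⟩ := iter_stab (ev_le (2 ^ k) φ) (cls M k D w) n
      rw [he]
      exact h m hm

end semantics

end Pool.Agent.U788.PAL.One
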