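import Pool.Agent.U788.PAL.OneDec

set_option autoImplicit false

/-! Computability of the evaluation. -/

namespace Pool.Agent.U788.PAL.One

/-- The table of a function below `m`. -/
def tab (m : ℕ) (f : ℕ → ℕ) : List ℕ := (List.range m).map f

theorem tab_getD {m : ℕ} (f : ℕ → ℕ) {D : ℕ} (hD : D < m) : (tab m f).getD D 0 = f D := by
  unfold tab
  rw [List.getD_eq_getElem?_getD, List.getElem?_map, List.getElem?_range hD]
  rfl

theorem tab_congr {m : ℕ} {f g : ℕ → ℕ} (h : ∀ D < m, f D = g D) : tab m f = tab m g := by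
  unfold tab
  apply List.map_congr_left
  intro D hD
  exact h D (List.mem_range.1 hD)

/-- The function given by a list. -/
def fn (T : List ℕ) (D : ℕ) : ℕ := T.getD D 0

theorem fn_tab {m : ℕ} (f : ℕ → ℕ) {D : ℕ} (hD : D < m) : fn (tab m f) D = f D := tab_getD f hD

/-- The new stack after a token; the parameters are the number of valuations `n` and the number of
sets of valuations `m`. -/
def newSt (n m : ℕ) (t : ℕ × ℕ) (st : List (List ℕ)) : List (List ℕ) :=
  bif t.1 == 0 then tab m (opVar n t.2) :: st else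
  bif t.1 == 1 then tab m (opNeg n (fn (st.getD 0 []))) :: st.tail else
  bif t.1 == 2 then tab m (opAnd n (fn (st.getD 0 [])) (fn (st.getD 1 []))) :: st.tail.tail else
  bif t.1 == 5 then tab m (opAnn n (fn (st.getD 0 [])) (fn (st.getD 1 []))) :: st.tail.tail else
  bif t.1 == 6 then tab m (opIter n (fn (st.getD 0 [])) (fn (st.getD 1 []))) :: st.tail.tail else
  tab m (opK (fn (st.getD 0 []))) :: st.tail

/-- The token can be processed with a stack of height `h`. -/
def ok (t : ℕ × ℕ) (h : ℕ) : Bool :=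
  t.1 == 0 || (t.1 == 1 && (t.2 == 0 && !(h == 0))) ||
  (t.1 == 2 && (t.2 == 0 && !(h == 0 || h == 1))) ||
  (t.1 == 3 && (t.2 == 0 && !(h == 0))) || (t.1 == 4 && (t.2 == 1 && !(h == 0))) ||
  (t.1 == 5 && (t.2 == 0 && !(h == 0 || h == 1))) ||
  (t.1 == 6 && (t.2 == 0 && !(h == 0 || h == 1)))

def step2 (n m : ℕ) (s : Bool × List (List ℕ)) (t : ℕ × ℕ) : Bool × List (List ℕ) :=
  (s.1 && ok t s.2.length, newSt n m t s.2)

theorem tab_neg {n m : ℕ} (f : ℕ → ℕ) : tab m (opNeg n (fn (tab m f))) = tab m (opNeg n f) :=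
  tab_congr fun D hD => by unfold opNeg; rw [fn_tab f hD]

theorem tab_and {n m : ℕ} (f g : ℕ → ℕ) :
    tab m (opAnd n (fn (tab m f)) (fn (tab m g))) = tab m (opAnd n f g) :=
  tab_congr fun D hD => by unfold opAnd; rw [fn_tab f hD, fn_tab g hD]

theorem tab_K {m : ℕ} (f : ℕ → ℕ) : tab m (opK (fn (tab m f))) = tab m (opK f) :=
  tab_congr fun D hD => by unfold opK; rw [fn_tab f hD]

theorem tab_ann {n m : ℕ} (f g : ℕ → ℕ) (hf : ∀ x, f x ≤ x) :
    tab m (opAnn n (fn (tab m f)) (fn (tab m g))) = tab m (opAnn n f g) :=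
  tab_congr fun D hD => by
    unfold opAnn; rw [fn_tab f hD, fn_tab g ((hf D).trans_lt hD)]

theorem iter_fn {m : ℕ} (f : ℕ → ℕ) (hf : ∀ x, f x ≤ x) {D : ℕ} (hD : D < m) (j : ℕ) :
    (fn (tab m f))^[j] D = f^[j] D := by
  induction j with
  | zero => rfl
  | succ j ih =>
    rw [Function.iterate_succ_apply', Function.iterate_succ_apply', ih,
      fn_tab f ((iter_le hf j D).trans_lt hD)]

theorem tab_iter {n m : ℕ} (f g : ℕ → ℕ) (hf : ∀ x, f x ≤ x) :
    tab m (opIter n (fn (tab m f)) (fn (tab m g))) = tab m (opIter n f g) :=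
  tab_congr fun D hD => by
    unfold opIter
    simp only [iter_fn f hf hD]
    have h : ∀ j, fn (tab m g) (f^[j] D) = g (f^[j] D) := fun j =>
      fn_tab g ((iter_le hf j D).trans_lt hD)
    simp only [h]

variable (n m : ℕ)

theorem foldl_toks (φ : Form 1) (st : List (List ℕ)) (rest : List (ℕ × ℕ)) :
    List.foldl (step2 n m) (true, st) ((toks φ).reverse ++ rest) =
      List.foldl (step2 n m) (true, tab m (ev n φ) :: st) rest := by
  induction φ generalizing st rest with
  | var i => rfl
  | neg φ ih =>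
    rw [toks, List.reverse_cons, List.append_assoc, ih]
    simp only [List.cons_append, List.nil_append, List.foldl_cons]
    congr 1
    simp [step2, ok, newSt, tab_neg, ev]
  | and φ ψ ih1 ih2 =>
    rw [toks, List.reverse_cons, List.reverse_append, List.append_assoc, List.append_assoc, ih2,
      ih1]
    simp only [List.cons_append, List.nil_append, List.foldl_cons]
    congr 1
    simp [step2, ok, newSt, tab_and, ev]
  | K a φ ih =>
    rw [toks, List.reverse_cons, List.append_assoc, ih]
    simp only [List.cons_append, List.nil_append, List.foldl_cons]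
    congr 1
    simp [step2, ok, newSt, tab_K, ev]
  | C G hG φ ih =>
    rw [toks, List.reverse_cons, List.append_assoc, ih]
    simp only [List.cons_append, List.nil_append, List.foldl_cons]
    have hG1 : G = {0} := by
      obtain ⟨a, ha⟩ := hG
      ext b
      have h1 : a = 0 := Subsingleton.elim _ _
      have h2 : b = 0 := Subsingleton.elim _ _
      subst h1 h2
      simp [ha]
    congr 1
    simp [step2, ok, newSt, tab_K, ev, hG1]
  | ann φ ψ ih1 ih2 =>
    rw [toks, List.reverse_cons, List.reverse_append, List.append_assoc, List.append_assoc, ih2,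
      ih1]
    simp only [List.cons_append, List.nil_append, List.foldl_cons]
    congr 1
    simp [step2, ok, newSt, tab_ann _ _ (ev_le n φ), ev]
  | iter φ ψ ih1 ih2 =>
    rw [toks, List.reverse_cons, List.reverse_append, List.append_assoc, List.append_assoc, ih2,
      ih1]
    simp only [List.cons_append, List.nil_append, List.foldl_cons]
    congr 1
    simp [step2, ok, newSt, tab_iter _ _ (ev_le n φ), ev]

theorem foldl_inv (out : List (ℕ × ℕ))
    (h : (List.foldl (step2 n m) (true, []) out).1 = true) :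
    ∃ φs : List (Form 1), out.reverse = φs.flatMap toks ∧
      (List.foldl (step2 n m) (true, []) out).2 = φs.map (fun φ => tab m (ev n φ)) := by
  induction out using List.reverseRecOn with
  | nil => exact ⟨[], rfl, rfl⟩
  | append_singleton out t ih =>
    rw [List.foldl_append] at h ⊢
    simp only [List.foldl_cons, List.foldl_nil] at h ⊢
    generalize List.foldl (step2 n m) (true, []) out = s at ih h ⊢
    obtain ⟨b, st⟩ := s
    obtain ⟨t1, t2⟩ := t
    simp only [step2, Bool.and_eq_true] at h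
    obtain ⟨φs, h1, h2⟩ := ih h.1
    simp only at h2
    have h3 := h.2
    subst h2
    rw [List.reverse_append, h1]
    simp only [List.length_map] at h3
    simp only [ok, Bool.or_eq_true, Bool.and_eq_true, beq_iff_eq, Bool.not_eq_true',
      Bool.or_eq_false_iff, beq_eq_false_iff_ne] at h3
    rcases h3 with (((((h3 | ⟨h3, h4, h5⟩) | ⟨h3, h4, h5, h6⟩) | ⟨h3, h4, h5⟩) | ⟨h3, h4, h5⟩) |
      ⟨h3, h4, h5, h6⟩) | ⟨h3, h4, h5, h6⟩
    · subst h3
      exact ⟨.var t2 :: φs, by simp [toks], rfl⟩
    · subst h3 h4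
      obtain ⟨φ, φs, rfl⟩ : ∃ φ φs', φs = φ :: φs' := by
        cases φs with
        | nil => simp at h5
        | cons a l => exact ⟨a, l, rfl⟩
      refine ⟨.neg φ :: φs, by simp [toks], ?_⟩
      simp [step2, newSt, tab_neg, ev]
    · subst h3 h4
      obtain ⟨φ, ψ, φs, rfl⟩ : ∃ φ ψ φs', φs = φ :: ψ :: φs' := by
        rcases φs with _ | ⟨a, _ | ⟨b, l⟩⟩
        · simp at h5
        · simp at h6
        · exact ⟨a, b, l, rfl⟩
      refine ⟨.and φ ψ :: φs, by simp [toks], ?_⟩
      simp [step2, newSt, tab_and, ev]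
    · subst h3 h4
      obtain ⟨φ, φs, rfl⟩ : ∃ φ φs', φs = φ :: φs' := by
        cases φs with
        | nil => simp at h5
        | cons a l => exact ⟨a, l, rfl⟩
      refine ⟨.K 0 φ :: φs, by simp [toks], ?_⟩
      simp [step2, newSt, tab_K, ev]
    · subst h3 h4
      obtain ⟨φ, φs, rfl⟩ : ∃ φ φs', φs = φ :: φs' := by
        cases φs with
        | nil => simp at h5
        | cons a l => exact ⟨a, l, rfl⟩
      refine ⟨.C {0} (Finset.singleton_nonempty 0) φ :: φs, by simp [toks], ?_⟩
      simp [step2, newSt, tab_K, ev]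
    · subst h3 h4
      obtain ⟨φ, ψ, φs, rfl⟩ : ∃ φ ψ φs', φs = φ :: ψ :: φs' := by
        rcases φs with _ | ⟨a, _ | ⟨b, l⟩⟩
        · simp at h5
        · simp at h6
        · exact ⟨a, b, l, rfl⟩
      refine ⟨.ann φ ψ :: φs, by simp [toks], ?_⟩
      simp [step2, newSt, tab_ann _ _ (ev_le n φ), ev]
    · subst h3 h4
      obtain ⟨φ, ψ, φs, rfl⟩ : ∃ φ ψ φs', φs = φ :: ψ :: φs' := by
        rcases φs with _ | ⟨a, _ | ⟨b, l⟩⟩
        · simp at h5
        · simp at h6
        · exact ⟨a, b, l, rfl⟩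
      refine ⟨.iter φ ψ :: φs, by simp [toks], ?_⟩
      simp [step2, newSt, tab_iter _ _ (ev_le n φ), ev]

end Pool.Agent.U788.PAL.One
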