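import Pool.Agent.U788.PAL.One

set_option autoImplicit false

/-! Finite validity for one agent in terms of the semantic value, and the evaluation of words. -/

namespace Pool.Agent.U788.PAL.One

/-- The model with one class, whose worlds are the digits of `D` equal to `1`. -/
def mod (N D : ℕ) : Model 1 {v : Fin N // D.testBit v = true} where
  rel := fun _ _ _ => True
  equiv := fun _ => ⟨fun _ => trivial, fun _ => trivial, fun _ _ => trivial⟩
  val := fun i w => ((w : Fin N) : ℕ).testBit i = true

theorem vl_mod (k D : ℕ) (w : {v : Fin (2 ^ k) // D.testBit v = true}) :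
    vl (mod (2 ^ k) D) k w = ((w : Fin (2 ^ k)) : ℕ) := by
  apply Nat.eq_of_testBit_eq
  intro v
  unfold vl
  rw [testBit_mk, Bool.eq_iff_iff]
  simp only [Bool.and_eq_true, decide_eq_true_eq]
  constructor
  · exact fun h => h.2
  · intro h
    refine ⟨?_, h⟩
    by_contra hv
    have h1 : ((w : Fin (2 ^ k)) : ℕ) < 2 ^ v :=
      lt_of_lt_of_le (w : Fin (2 ^ k)).2 (Nat.pow_le_pow_right (by norm_num) (by omega))
    rw [Nat.testBit_lt_two_pow h1] at h
    exact Bool.noConfusion h

theorem lt_of_testBit {D N v : ℕ} (hD : D < 2 ^ N) (h : D.testBit v = true) : v < N := by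
  by_contra hv
  have h1 : D < 2 ^ v := lt_of_lt_of_le hD (Nat.pow_le_pow_right (by norm_num) (by omega))
  rw [Nat.testBit_lt_two_pow h1] at h
  exact Bool.noConfusion h

theorem cls_mod (k D : ℕ) (hD : D < 2 ^ (2 ^ k)) (w : {v : Fin (2 ^ k) // D.testBit v = true}) :
    cls (mod (2 ^ k) D) k Set.univ w = D := by
  apply Nat.eq_of_testBit_eq
  intro v
  rw [Bool.eq_iff_iff, cls_bit]
  constructor
  · rintro ⟨u, _, _, rfl⟩
    rw [vl_mod]
    exact u.2
  · intro h
    exact ⟨⟨⟨v, lt_of_testBit hD h⟩, h⟩, trivial, trivial, vl_mod k D _⟩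

theorem finValid_iff (k : ℕ) (φ : Form 1) (hφ : Low k φ) :
    FinValid φ ↔ ∀ D < 2 ^ (2 ^ k), ev (2 ^ k) φ D = D := by
  constructor
  · intro h D hD
    apply Nat.eq_of_testBit_eq
    intro v
    rw [Bool.eq_iff_iff]
    refine ⟨ev_bits _ _ _ _, fun h1 => ?_⟩
    have h2 := h _ (mod (2 ^ k) D) ⟨⟨v, lt_of_testBit hD h1⟩, h1⟩
    have h3 := (good (M := mod (2 ^ k) D) φ hφ Set.univ _ trivial).1 h2
    rwa [cls_mod k D hD, vl_mod] at h3
  · intro h W _ M w
    refine (good (M := M) (k := k) φ hφ Set.univ w trivial).2 ?_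
    have hc : cls M k Set.univ w < 2 ^ (2 ^ k) := mk_lt _ _
    rw [h _ hc]
    exact cls_self M k trivial

/-! ### Tokens -/

/-- The tokens of a formula: pairs (tag, argument). -/
def toks : Form 1 → List (ℕ × ℕ)
  | .var i => [(0, i)]
  | .neg φ => (1, 0) :: toks φ
  | .and φ ψ => (2, 0) :: (toks φ ++ toks ψ)
  | .K a φ => (3, (a : ℕ)) :: toks φ
  | .C G _ φ => (4, ∑ a ∈ G, 2 ^ (a : ℕ)) :: toks φ
  | .ann φ ψ => (5, 0) :: (toks φ ++ toks ψ)
  | .iter φ ψ => (6, 0) :: (toks φ ++ toks ψ)

/-- One step of the tokenizer. The state is `(p, tokens so far, the last one first)`; `p = t + 1`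
when the argument of the tag `t` is expected. -/
def step1 (s : ℕ × List (ℕ × ℕ)) (x : ℕ) : ℕ × List (ℕ × ℕ) :=
  bif s.1 == 0 then (bif x == 0 || x == 3 || x == 4 then (x + 1, s.2) else (0, (x, 0) :: s.2))
  else (0, (s.1 - 1, x) :: s.2)

theorem foldl_word (φ : Form 1) (out : List (ℕ × ℕ)) (rest : List ℕ) :
    List.foldl step1 (0, out) (word φ ++ rest) =
      List.foldl step1 (0, (toks φ).reverse ++ out) rest := by
  induction φ generalizing out rest with
  | var i => rfl
  | neg φ ih =>
    simp only [word, List.cons_append, List.foldl_cons]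
    have : step1 (0, out) 1 = (0, (1, 0) :: out) := rfl
    rw [this, ih]
    simp [toks]
  | and φ ψ ih1 ih2 =>
    simp only [word, List.cons_append, List.foldl_cons, List.append_assoc]
    have : step1 (0, out) 2 = (0, (2, 0) :: out) := rfl
    rw [this, ih1, ih2]
    simp [toks]
  | K a φ ih =>
    simp only [word, List.cons_append, List.foldl_cons]
    have : step1 (step1 (0, out) 3) (a : ℕ) = (0, (3, (a : ℕ)) :: out) := rfl
    rw [this, ih]
    simp [toks]
  | C G hG φ ih =>
    simp only [word, List.cons_append, List.foldl_cons]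
    have : ∀ g : ℕ, step1 (step1 (0, out) 4) g = (0, (4, g) :: out) := fun g => rfl
    rw [this, ih]
    simp [toks]
  | ann φ ψ ih1 ih2 =>
    simp only [word, List.cons_append, List.foldl_cons, List.append_assoc]
    have : step1 (0, out) 5 = (0, (5, 0) :: out) := rfl
    rw [this, ih1, ih2]
    simp [toks]
  | iter φ ψ ih1 ih2 =>
    simp only [word, List.cons_append, List.foldl_cons, List.append_assoc]
    have : step1 (0, out) 6 = (0, (6, 0) :: out) := rfl
    rw [this, ih1, ih2]
    simp [toks]

/-- The list of numbers which spells a token. -/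
def spell (t : ℕ × ℕ) : List ℕ := bif t.1 == 0 || t.1 == 3 || t.1 == 4 then [t.1, t.2] else [t.1]

theorem spell_toks (φ : Form 1) : (toks φ).flatMap spell = word φ := by
  induction φ with
  | var i => rfl
  | neg φ ih => simp [toks, word, spell, ih]
  | and φ ψ ih1 ih2 => simp [toks, word, spell, ih1, ih2]
  | K a φ ih => simp [toks, word, spell, ih]
  | C G hG φ ih => simp [toks, word, spell, ih]
  | ann φ ψ ih1 ih2 => simp [toks, word, spell, ih1, ih2]
  | iter φ ψ ih1 ih2 => simp [toks, word, spell, ih1, ih2]

theorem unspell (l : List ℕ) :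
    l = (List.foldl step1 (0, []) l).2.reverse.flatMap spell ++
        (bif (List.foldl step1 (0, []) l).1 == 0 then []
          else [(List.foldl step1 (0, []) l).1 - 1]) ∧
      ((List.foldl step1 (0, []) l).1 = 0 ∨ (List.foldl step1 (0, []) l).1 = 1 ∨
        (List.foldl step1 (0, []) l).1 = 4 ∨ (List.foldl step1 (0, []) l).1 = 5) := by
  induction l using List.reverseRecOn with
  | nil => simp
  | append_singleton l x ih =>
    rw [List.foldl_append]
    simp only [List.foldl_cons, List.foldl_nil]
    generalize List.foldl step1 (0, []) l = s at ih ⊢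
    obtain ⟨p, out⟩ := s
    obtain ⟨ih1, ih2⟩ := ih
    simp only at ih1 ih2
    unfold step1
    rcases ih2 with rfl | rfl | rfl | rfl
    · by_cases hx : x = 0 ∨ x = 3 ∨ x = 4
      · have h1 : (x == 0 || x == 3 || x == 4) = true := by
          rcases hx with rfl | rfl | rfl <;> rfl
        simp only [h1, beq_self_eq_true, cond_true] at ih1 ⊢
        rw [List.append_nil] at ih1
        constructor
        · rw [← ih1]; simp
        · omega
      · have h1 : (x == 0 || x == 3 || x == 4) = false := by
          push Not at hx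
          simp [hx.1, hx.2.1, hx.2.2]
        simp only [h1, beq_self_eq_true, cond_true, cond_false] at ih1 ⊢
        rw [List.append_nil] at ih1
        constructor
        · rw [List.reverse_cons, List.flatMap_append, ← ih1]
          simp [spell, h1]
        · simp
    all_goals
      simp at ih1
      constructor
      · rw [ih1]; simp [spell]
      · simp

end Pool.Agent.U788.PAL.One
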