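import Pool.Agent.U788.PAL.Theta

set_option autoImplicit false

namespace Pool.Agent.U788.PAL

open Pool.Agent.Helper948.Erode

variable {m : ℕ} {P J : Type}

namespace Par

variable (R : Par m P J) {W : Type} (N : Model m W)
variable [Fintype P] [Fintype J] [DecidableEq P] (M : DM P J)

/-- steps inside `D` -/
def stp (D : Set W) (x y : W) : Prop := x ∈ D ∧ y ∈ D ∧ ∃ a ∈ R.G, N.rel a x y

omit [Fintype P] [Fintype J] [DecidableEq P] in
theorem mem_G {x : Fin m} (h : x ∈ R.G) : ∃ c, x = R.ag c := by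
  simp only [G, Finset.mem_insert, Finset.mem_singleton] at h
  rcases h with h | h
  · exact ⟨true, h⟩
  · exact ⟨false, h⟩

theorem sat_theta (p0 : P) (w : W) : Sat N (R.theta M p0) Set.univ w ↔
    R.Lk N w ∧ R.St N true (some p0) w ∧ (∀ j, ¬ R.A N true j 1 w) ∧
    (∀ v, Relation.TransGen (R.stp N Set.univ) w v → R.Lk N v → R.Loc N M v) ∧
    (∀ n v, Relation.TransGen (R.stp N (R.S N n)) w v → R.Lk N v → R.Cmp N M n v) ∧
    (∃ v, Relation.TransGen (R.stp N {v | R.Lk N v}) w v ∧ ∃ c, R.St N c none v) := by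
  have e1 : ∀ v, Sat N (R.lk) Set.univ v ↔ R.Lk N v := fun v => R.sat_lk N _ v
  have e2 : ({v | v ∈ Set.univ ∧ Sat N R.lk Set.univ v} : Set W) = {v | R.Lk N v} := by
    ext v
    simp only [Set.mem_univ, true_and]
    exact e1 v
  constructor
  · rintro ⟨h1, h2, h3, h4, h5, h6⟩
    have h1' := (e1 w).1 h1
    refine ⟨h1', h2, ?_, ?_, ?_, ?_⟩
    · intro j
      have := (sat_allF N _ w _).1 h3 j
      rw [sat_neg, R.sat_al0] at this
      exact this
    · intro v hv hl
      have := h4 v hv
      rw [sat_imp, e1, R.sat_loc] at this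
      exact this hl
    · intro n v hv hl
      have hw : w ∈ (fun E : Set W => {v | v ∈ E ∧ Sat N R.peel E v})^[n] Set.univ := by
        rw [R.iter_S]; exact Or.inl h1'
      have := h5 n hw
      rw [R.iter_S] at this
      have := this v hv
      rw [sat_imp, R.sat_cmp, R.sat_lk] at this
      exact this hl
    · have h6' : ¬ (Sat N R.lk Set.univ w → Sat N (.C R.G R.hG (.neg (.exF (fun c : Bool =>
          R.stt c none)))) {v | v ∈ Set.univ ∧ Sat N R.lk Set.univ v} w) := h6
      rw [e2] at h6'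
      by_contra hcon
      apply h6'
      intro _ v hv
      rw [sat_neg, sat_exF]
      rintro ⟨c, hc⟩
      exact hcon ⟨v, hv, c, hc⟩
  · rintro ⟨h1, h2, h3, h4, h5, h6⟩
    refine ⟨(e1 w).2 h1, h2, ?_, ?_, ?_, ?_⟩
    · rw [sat_allF]
      intro j
      rw [sat_neg, R.sat_al0]
      exact h3 j
    · intro v hv
      rw [sat_imp, e1, R.sat_loc]
      exact h4 v hv
    · intro n _
      rw [R.iter_S]
      intro v hv
      rw [sat_imp, R.sat_cmp, R.sat_lk]
      exact h5 n v hv
    · change ¬ (Sat N R.lk Set.univ w → Sat N (.C R.G R.hG (.neg (.exF (fun c : Bool =>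
          R.stt c none)))) {v | v ∈ Set.univ ∧ Sat N R.lk Set.univ v} w)
      rw [e2]
      intro hcon
      obtain ⟨v, hv, c, hc⟩ := h6
      have := hcon ((e1 w).2 h1) v hv
      rw [sat_neg, sat_exF] at this
      exact this ⟨c, hc⟩

/-- a decreasing predicate on numbers which holds exactly up to `k` -/
def Cnt (F : ℕ → Prop) (k : ℕ) : Prop := ∀ n, F n ↔ n ≤ k

theorem cnt_shift {F F' : ℕ → Prop} (hF' : ∀ i j, i ≤ j → F' j → F' i) {u v k : ℕ}
    (h : ∀ n, F (n + u) ↔ F' (n + v)) (hu : F u) (hk : Cnt F k) : Cnt F' (k - u + v) ∧ u ≤ k := by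
  have huk : u ≤ k := (hk u).1 hu
  refine ⟨fun n => ?_, huk⟩
  by_cases hn : v ≤ n
  · obtain ⟨i, rfl⟩ := Nat.exists_eq_add_of_le' hn
    rw [← h i, hk]
    omega
  · have h1 : F' v := by
      have := (h 0).1 (by rwa [Nat.zero_add])
      rwa [Nat.zero_add] at this
    have h2 : F' n := hF' n v (by omega) h1
    simp only [h2, true_iff]
    omega

theorem cnt_uniq {F : ℕ → Prop} {k l : ℕ} (hk : Cnt F k) (hl : Cnt F l) : k = l := by
  have h1 := (hk l).1 ((hl l).2 le_rfl)
  have h2 := (hl k).1 ((hk k).2 le_rfl)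
  omega

section link

variable {N M} {x : W} (hL : R.Loc N M x) (hC : ∀ n, R.Cmp N M n x)
include hL hC

omit [Fintype P] [Fintype J] [DecidableEq P] hC in
theorem precond {d : Bool} (hd : R.Co N d x) {p : P} (hp : R.St N d (some p) x) {t : Bool}
    (ht : R.Po N t x) (j : J) : R.A N d j (-(M.vec p t j)).toNat x := by
  cases t with
  | false =>
    have := M.hz p j
    have e : (-(M.vec p false j)).toNat = 0 := by omega
    rw [e]
    exact hL.h7 d j
  | true =>
    by_cases hj : j = M.reg p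
    · subst hj
      rw [M.hp']
      exact (hL.h6 d p hd hp).1 (ht.2 rfl)
    · have := M.hp p j hj
      have e : (-(M.vec p true j)).toNat = 0 := by omega
      rw [e]
      exact hL.h7 d j

omit [Fintype P] [Fintype J] [DecidableEq P] in
theorem link_fwd {d : Bool} (hd : R.Co N d x) {p : P} (hp : R.St N d (some p) x) {t : Bool}
    (ht : R.Po N t x) (j : J) {k : ℕ} (hk : Cnt (fun n => R.A N d j n x) k) :
    Cnt (fun n => R.A N (!d) j n x) (k - (-(M.vec p t j)).toNat + (M.vec p t j).toNat) ∧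
      (-(M.vec p t j)).toNat ≤ k := by
  refine cnt_shift (F := fun n => R.A N d j n x) (fun i j hij h => R.A_le N hij h) ?_ ?_ hk
  · intro n
    exact hC n d p t j hd hp ht
  · exact R.precond hL hd hp ht j

omit [Fintype P] [Fintype J] [DecidableEq P] in
theorem link_bwd {d : Bool} (hd : R.Co N d x) {p : P} (hp : R.St N d (some p) x) {t : Bool}
    (ht : R.Po N t x) (j : J) {k : ℕ} (hk : Cnt (fun n => R.A N (!d) j n x) k) :
    ∃ l, Cnt (fun n => R.A N d j n x) l := by
  have := cnt_shift (F := fun n => R.A N (!d) j n x) (F' := fun n => R.A N d j n x)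
    (u := (M.vec p t j).toNat) (v := (-(M.vec p t j)).toNat)
    (fun i j hij h => R.A_le N hij h) ?_ ?_ hk
  · exact ⟨_, this.1⟩
  · intro n
    exact (hC n d p t j hd hp ht).symm
  · have h1 := (hC 0 d p t j hd hp ht).1
    simp only [Nat.zero_add] at h1
    exact h1 (R.precond hL hd hp ht j)

omit [Fintype P] [Fintype J] [DecidableEq P] in
theorem link_rel {d : Bool} (hd : R.Co N d x) {p : P} (hp : R.St N d (some p) x) {s : Option P}
    (hs : R.St N (!d) s x) {k k' : J → ℕ} (hk : ∀ j, Cnt (fun n => R.A N d j n x) (k j))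
    (hk' : ∀ j, Cnt (fun n => R.A N (!d) j n x) (k' j)) :
    M.st (some p, fun j => (k j : ℤ)) = (s, fun j => (k' j : ℤ)) := by
  classical
  obtain ⟨t, ht⟩ : ∃ t, R.Po N t x := by
    by_cases h : R.V N (.inl 2) x
    · exact ⟨true, by simp [Po, h]⟩
    · exact ⟨false, by simp [Po, h]⟩
  have hbr : M.br p (fun j => (k j : ℤ)) = t := by
    have h1 := hL.h6 d p hd hp
    have h2 := hk (M.reg p) 1
    have h3 : R.V N (.inl 2) x ↔ 1 ≤ k (M.reg p) := h1.trans h2
    unfold DM.br
    by_cases h : R.V N (.inl 2) x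
    · have h4 := ht.1 h
      have h5 := h3.1 h
      rw [h4, decide_eq_true_eq]
      show (0 : ℤ) < (k (M.reg p) : ℤ)
      omega
    · have h4 : t = false := by
        cases t with
        | false => rfl
        | true => exact absurd (ht.2 rfl) h
      have h5 : ¬ 1 ≤ k (M.reg p) := fun h6 => h (h3.2 h6)
      rw [h4, decide_eq_false_iff_not]
      show ¬ (0 : ℤ) < (k (M.reg p) : ℤ)
      omega
  have hs' := hL.h5 d p t hd hp ht
  have e1 : M.nxt p t = s := hL.h2 _ _ _ hs' hs
  simp only [DM.st]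
  rw [hbr, e1]
  congr 1
  funext j
  have h1 := R.link_fwd hL hC hd hp ht j (hk j)
  have h2 := cnt_uniq h1.1 (hk' j)
  simp only [Pi.add_apply]
  have h3 := h1.2
  omega

/-- the invariant at one class -/
def Inv (N : Model m W) (M : DM P J) (p0 : P) (c : Bool) (x : W) : Prop :=
  ∃ (s : Option P) (k : J → ℕ), R.St N c s x ∧ (∀ j, Cnt (fun n => R.A N c j n x) (k j)) ∧
    (M.Halts (s, fun j => (k j : ℤ)) ↔ M.Halts (some p0, 0))

theorem transfer {p0 : P} {c : Bool} (h : R.Inv N M p0 c x) : R.Inv N M p0 (!c) x := by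
  classical
  obtain ⟨s, k, hs, hk, hH⟩ := h
  obtain ⟨t, ht⟩ : ∃ t, R.Po N t x := by
    by_cases h : R.V N (.inl 2) x
    · exact ⟨true, by simp [Po, h]⟩
    · exact ⟨false, by simp [Po, h]⟩
  obtain ⟨s', hs'⟩ := hL.h1 (!c)
  have hco : R.Co N c x ∨ R.Co N (!c) x := by
    unfold Co
    by_cases h : R.V N (.inl 1) x <;> cases c <;> simp [h]
  rcases hco with hd | hd
  · rcases s with _ | p
    · exact absurd hs (hL.h4 c hd)
    · choose k' hk' using fun j => (⟨_, (R.link_fwd hL hC hd hs ht j (hk j)).1⟩ :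
        ∃ l, Cnt (fun n => R.A N (!c) j n x) l)
      refine ⟨s', k', hs', hk', ?_⟩
      rw [← R.link_rel hL hC hd hs hs' hk hk', DM.halts_st]
      exact hH
  · rcases s' with _ | p
    · exact absurd hs' (hL.h4 _ hd)
    · have hcc : (!(!c)) = c := by cases c <;> rfl
      have hk2 : ∀ j, Cnt (fun n => R.A N (!(!c)) j n x) (k j) := by rw [hcc]; exact hk
      choose k' hk' using fun j => R.link_bwd hL hC hd hs' ht j (hk2 j)
      have hs2 : R.St N (!(!c)) s x := by rw [hcc]; exact hs
      refine ⟨_, k', hs', hk', ?_⟩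
      rw [← DM.halts_st, R.link_rel hL hC hd hs' hs2 hk' hk2]
      exact hH

end link

theorem sound (p0 : P) (w : W) (h : Sat N (R.theta M p0) Set.univ w) :
    M.Halts (some p0, 0) := by
  rw [R.sat_theta] at h
  obtain ⟨h1, h2, h3, h4, h5, v, hv, c, hc⟩ := h
  have hrefl : ∀ D : Set W, w ∈ D → R.stp N D w w := fun D hD =>
    ⟨hD, hD, R.ag true, R.ag_mem true, (N.equiv _).refl w⟩
  have key : ∀ u, Relation.ReflTransGen (R.stp N {v | R.Lk N v}) w u →
      R.Lk N u ∧ R.Loc N M u ∧ (∀ n, R.Cmp N M n u) ∧ ∀ c, R.Inv N M p0 c u := by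
    intro u hu
    have hlk : R.Lk N u := by
      rcases Relation.ReflTransGen.cases_tail hu with h | ⟨u', _, h⟩
      · rw [h]; exact h1
      · exact h.2.1
    have hmono : ∀ D : Set W, {v | R.Lk N v} ⊆ D → Relation.TransGen (R.stp N D) w u := by
      intro D hD
      refine Relation.TransGen.head' (hrefl D (hD h1)) ?_
      refine Relation.ReflTransGen.mono ?_ _ _ hu
      rintro a b ⟨ha, hb, g⟩
      exact ⟨hD ha, hD hb, g⟩
    have hloc : R.Loc N M u := h4 u (hmono _ (Set.subset_univ _)) hlk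
    have hcmp : ∀ n, R.Cmp N M n u := fun n => h5 n u (hmono _ (fun x hx => Or.inl hx)) hlk
    refine ⟨hlk, hloc, hcmp, ?_⟩
    have hany : ∀ c, R.Inv N M p0 c u → ∀ c', R.Inv N M p0 c' u := by
      intro c h c'
      by_cases hcc : c' = c
      · rw [hcc]; exact h
      · have : c' = !c := by cases c <;> cases c' <;> simp_all
        rw [this]
        exact R.transfer hloc hcmp h
    clear hmono hlk
    induction hu with
    | refl =>
      apply hany true
      refine ⟨some p0, fun _ => 0, h2, ?_, ?_⟩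
      · intro j n
        constructor
        · intro hn
          by_contra hn'
          exact h3 j (R.A_le N (by omega : 1 ≤ n) hn)
        · intro (hn : n ≤ 0)
          have : n = 0 := by omega
          subst this
          exact hloc.h7 true j
      · have : (fun _ : J => ((0 : ℕ) : ℤ)) = 0 := by funext j; rfl
        rw [this]
    | @tail u' u hu' hstep ih =>
      obtain ⟨hu1, hu2, g, hg, hgr⟩ := hstep
      obtain ⟨c0, rfl⟩ := R.mem_G hg
      have hlk' : R.Lk N u' := hu1
      have hmono' : ∀ D : Set W, {v | R.Lk N v} ⊆ D → Relation.TransGen (R.stp N D) w u' := by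
        intro D hD
        refine Relation.TransGen.head' (hrefl D (hD h1)) ?_
        refine Relation.ReflTransGen.mono ?_ _ _ hu'
        rintro a b ⟨ha, hb, g⟩
        exact ⟨hD ha, hD hb, g⟩
      have hloc' : R.Loc N M u' := h4 u' (hmono' _ (Set.subset_univ _)) hlk'
      have hcmp' : ∀ n, R.Cmp N M n u' :=
        fun n => h5 n u' (hmono' _ (fun x hx => Or.inl hx)) hlk'
      have hany' : ∀ c, R.Inv N M p0 c u' → ∀ c', R.Inv N M p0 c' u' := by
        intro c h c'
        by_cases hcc : c' = c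
        · rw [hcc]; exact h
        · have : c' = !c := by cases c <;> cases c' <;> simp_all
          rw [this]
          exact R.transfer hloc' hcmp' h
      obtain ⟨s, k, hs, hk, hH⟩ := ih hloc' hcmp' hany' c0
      apply hany c0
      refine ⟨s, k, hloc'.h3 c0 s hs u hgr hu2, ?_, hH⟩
      intro j n
      rw [← hk j n]
      constructor
      · rintro ⟨y, hy1, hy2⟩
        exact ⟨y, (N.equiv _).trans hgr hy1, hy2⟩
      · rintro ⟨y, hy1, hy2⟩
        exact ⟨y, (N.equiv _).trans ((N.equiv _).symm hgr) hy1, hy2⟩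
  obtain ⟨_, hloc, _, hinv⟩ := key v hv.to_reflTransGen
  obtain ⟨s, k, hs, _, hH⟩ := hinv c
  have : s = none := hloc.h2 c s none hs hc
  subst this
  exact hH.1 ⟨0, rfl⟩

end Par

end Pool.Agent.U788.PAL
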