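import Pool.Agent.U788.PAL.Defs

set_option autoImplicit false

namespace Pool.Agent.U788.PAL

variable {m : ℕ}

namespace Form

def top : Form m := neg (and (var 0) (neg (var 0)))
def or (φ ψ : Form m) : Form m := neg (and (neg φ) (neg ψ))
def imp (φ ψ : Form m) : Form m := neg (and φ (neg ψ))
def iff (φ ψ : Form m) : Form m := and (imp φ ψ) (imp ψ φ)
def dia (a : Fin m) (φ : Form m) : Form m := neg (K a (neg φ))

def bigAnd : List (Form m) → Form m
  | [] => top
  | φ :: l => and φ (bigAnd l)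

noncomputable def allF {ι : Type} [Fintype ι] (f : ι → Form m) : Form m :=
  bigAnd ((Finset.univ : Finset ι).toList.map f)

noncomputable def exF {ι : Type} [Fintype ι] (f : ι → Form m) : Form m :=
  neg (allF (fun i => neg (f i)))

end Form

variable {W : Type} (M : Model m W) (D : Set W) (w : W)

@[simp] theorem sat_var (i : ℕ) : Sat M (.var i) D w ↔ M.val i w := Iff.rfl
@[simp] theorem sat_neg (φ : Form m) : Sat M (.neg φ) D w ↔ ¬ Sat M φ D w := Iff.rfl
@[simp] theorem sat_and (φ ψ : Form m) : Sat M (.and φ ψ) D w ↔ Sat M φ D w ∧ Sat M ψ D w := Iff.rfl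
@[simp] theorem sat_K (a : Fin m) (φ : Form m) :
    Sat M (.K a φ) D w ↔ ∀ v ∈ D, M.rel a w v → Sat M φ D v := Iff.rfl
@[simp] theorem sat_top : Sat M .top D w ↔ True := by
  simp [Form.top]
@[simp] theorem sat_or (φ ψ : Form m) : Sat M (.or φ ψ) D w ↔ Sat M φ D w ∨ Sat M ψ D w := by
  simp only [Form.or, sat_neg, sat_and]; tauto
@[simp] theorem sat_imp (φ ψ : Form m) : Sat M (.imp φ ψ) D w ↔ (Sat M φ D w → Sat M ψ D w) := by
  simp only [Form.imp, sat_neg, sat_and]; tauto
@[simp] theorem sat_iff (φ ψ : Form m) : Sat M (.iff φ ψ) D w ↔ (Sat M φ D w ↔ Sat M ψ D w) := by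
  simp only [Form.iff, sat_and, sat_imp]; tauto
@[simp] theorem sat_dia (a : Fin m) (φ : Form m) :
    Sat M (.dia a φ) D w ↔ ∃ v ∈ D, M.rel a w v ∧ Sat M φ D v := by
  simp only [Form.dia, sat_neg, sat_K]; push Not; rfl
@[simp] theorem sat_bigAnd (l : List (Form m)) :
    Sat M (.bigAnd l) D w ↔ ∀ φ ∈ l, Sat M φ D w := by
  induction l with
  | nil => simp [Form.bigAnd]
  | cons φ l ih => simp [Form.bigAnd, ih]
@[simp] theorem sat_allF {ι : Type} [Fintype ι] (f : ι → Form m) :
    Sat M (.allF f) D w ↔ ∀ i, Sat M (f i) D w := by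
  simp [Form.allF]
@[simp] theorem sat_exF {ι : Type} [Fintype ι] (f : ι → Form m) :
    Sat M (.exF f) D w ↔ ∃ i, Sat M (f i) D w := by
  simp [Form.exF]

end Pool.Agent.U788.PAL
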