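import Pool.Agent.U788.PAL.Syn
import Pool.Agent.Helper948.Erode.Reg

set_option autoImplicit false

namespace Pool.Agent.U788.PAL

open Pool.Agent.Helper948.Erode

/-- letters used by the reduction: chain world, colour, positive; bases; state labels -/
abbrev Letter (P J : Type) := Fin 3 ⊕ J ⊕ (Bool × Option P)

/-- parameters of the reduction -/
structure Par (m : ℕ) (P J : Type) where
  a : Fin m
  b : Fin m
  hab : a ≠ b
  e : Letter P J → ℕ
  he : Function.Injective e

variable {m : ℕ} {P J : Type}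

namespace Par

variable (R : Par m P J)

def ag (c : Bool) : Fin m := if c then R.a else R.b
def G : Finset (Fin m) := {R.a, R.b}
theorem hG : R.G.Nonempty := ⟨R.a, by simp [G]⟩
theorem ag_mem (c : Bool) : R.ag c ∈ R.G := by cases c <;> simp [ag, G]

/-- letters as formulas -/
def L (x : Letter P J) : Form m := .var (R.e x)
def chn : Form m := R.L (.inl 0)
def col : Form m := R.L (.inl 1)
def pos : Form m := R.L (.inl 2)
def base (j : J) : Form m := R.L (.inr (.inl j))
def stt (c : Bool) (s : Option P) : Form m := R.L (.inr (.inr (c, s)))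

/-- link world -/
def lk : Form m := .neg R.chn
/-- literal -/
def lit (φ : Form m) (c : Bool) : Form m := if c then φ else .neg φ
/-- chain world of colour `c` -/
def ch (c : Bool) : Form m := .and R.chn (lit R.col c)

/-- a chain of length `k` starts here -/
def up : Bool → ℕ → Form m
  | c, 0 => R.ch c
  | c, k + 1 => .and (R.ch c) (.dia (R.ag c) (up (!c) k))

/-- the announced formula -/
def peel : Form m := .or R.lk (.or (R.up true 1) (R.up false 1))

/-- the counter `j` of the `c`-class has value at least `k` -/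
def al (c : Bool) (j : J) (k : ℕ) : Form m := .dia (R.ag c) (.and (R.base j) (R.up (!c) k))

section
variable [Fintype P] [Fintype J] [DecidableEq P] (M : DM P J)

noncomputable def l1 : Form m := .allF (fun c : Bool => .exF (fun s : Option P => R.stt c s))
noncomputable def l2 : Form m := .allF (fun c : Bool => .allF (fun s : Option P =>
  .allF (fun t : Option P => if s = t then .top else .neg (.and (R.stt c s) (R.stt c t)))))
noncomputable def l3 : Form m := .allF (fun c : Bool => .allF (fun s : Option P =>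
  .imp (R.stt c s) (.K (R.ag c) (.imp R.lk (R.stt c s)))))
noncomputable def l4 : Form m := .allF (fun c : Bool => .imp (lit R.col c) (.neg (R.stt c none)))
noncomputable def l5 : Form m := .allF (fun c : Bool => .allF (fun p : P => .allF (fun t : Bool =>
  .imp (.and (lit R.col c) (.and (R.stt c (some p)) (lit R.pos t))) (R.stt (!c) (M.nxt p t)))))
noncomputable def l6 : Form m := .allF (fun c : Bool => .allF (fun p : P =>
  .imp (.and (lit R.col c) (R.stt c (some p))) (.iff R.pos (R.al c (M.reg p) 1))))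
noncomputable def l7 : Form m := .allF (fun c : Bool => .allF (fun j : J => R.al c j 0))

/-- the local conditions -/
noncomputable def loc : Form m :=
  .and R.l1 (.and R.l2 (.and R.l3 (.and R.l4 (.and (R.l5 M) (.and (R.l6 M) R.l7)))))

/-- comparison of the counters of the two classes -/
noncomputable def cmp : Form m := .allF (fun c : Bool => .allF (fun p : P => .allF (fun t : Bool =>
  .allF (fun j : J => .imp (.and (lit R.col c) (.and (R.stt c (some p)) (lit R.pos t)))
    (.iff (R.al c j (-(M.vec p t j)).toNat) (R.al (!c) j (M.vec p t j).toNat))))))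

/-- the whole formula -/
noncomputable def theta (p0 : P) : Form m :=
  .and R.lk (.and (R.stt true (some p0)) (.and (.allF (fun j : J => .neg (R.al true j 1)))
    (.and (.C R.G R.hG (.imp R.lk (R.loc M)))
      (.and (.iter R.peel (.C R.G R.hG (.imp R.lk (R.cmp M))))
        (.neg (.ann R.lk (.C R.G R.hG (.neg (.exF (fun c : Bool => R.stt c none))))))))))

end

/-! ### Semantics -/

variable {W : Type} (N : Model m W)

/-- truth of letters -/
def V (x : Letter P J) (w : W) : Prop := N.val (R.e x) w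
/-- a chain world of colour `c` -/
def CH (c : Bool) (w : W) : Prop := R.V N (.inl 0) w ∧ (R.V N (.inl 1) w ↔ c = true)

def Path : Bool → ℕ → W → Prop
  | c, 0, w => R.CH N c w
  | c, k + 1, w => R.CH N c w ∧ ∃ v, N.rel (R.ag c) w v ∧ Path (!c) k v

theorem path_CH {c : Bool} {k : ℕ} {w : W} (h : R.Path N c k w) : R.CH N c w := by
  cases k with
  | zero => exact h
  | succ k => exact h.1

theorem path_anti {c : Bool} {k : ℕ} {w : W} (h : R.Path N c (k + 1) w) : R.Path N c k w := by
  induction k generalizing c w with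
  | zero => exact h.1
  | succ k ih =>
    obtain ⟨h1, v, hv, h2⟩ := h
    exact ⟨h1, v, hv, ih h2⟩

theorem path_le {c : Bool} {k l : ℕ} {w : W} (hkl : k ≤ l) (h : R.Path N c l w) :
    R.Path N c k w := by
  induction l, hkl using Nat.le_induction with
  | base => exact h
  | succ l _ ih => exact ih (R.path_anti N h)

theorem CH_uniq {c c' : Bool} {w : W} (h : R.CH N c w) (h' : R.CH N c' w) : c = c' := by
  have h1 := h.2.symm.trans h'.2
  cases c <;> cases c' <;> simp_all

/-- the worlds that survive `n` rounds -/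
def S (n : ℕ) : Set W := {w | ¬ R.V N (.inl 0) w ∨ ∃ c, R.Path N c n w}

@[simp] theorem sat_L (D : Set W) (w : W) (x : Letter P J) : Sat N (R.L x) D w ↔ R.V N x w := Iff.rfl

theorem sat_lit (D : Set W) (w : W) (φ : Form m) (c : Bool) :
    Sat N (lit φ c) D w ↔ (Sat N φ D w ↔ c = true) := by
  cases c <;> simp [lit]

theorem sat_ch (D : Set W) (w : W) (c : Bool) : Sat N (R.ch c) D w ↔ R.CH N c w := by
  simp [ch, CH, chn, col, sat_lit]

theorem sat_lk (D : Set W) (w : W) : Sat N R.lk D w ↔ ¬ R.V N (.inl 0) w := by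
  simp [lk, chn]

theorem sat_up (n k : ℕ) : ∀ (c : Bool) (w : W), w ∈ R.S N n →
    (Sat N (R.up c k) (R.S N n) w ↔ R.Path N c (n + k) w) := by
  induction k with
  | zero =>
    intro c w hw
    rw [up, sat_ch, Nat.add_zero]
    constructor
    · intro h
      rcases hw with hw | ⟨c', hw⟩
      · exact absurd h.1 hw
      · rw [R.CH_uniq N h (R.path_CH N hw)]
        exact hw
    · exact R.path_CH N
  | succ k ih =>
    intro c w hw
    rw [up, sat_and, sat_ch, sat_dia, ← Nat.add_assoc, Path]
    refine and_congr_right (fun _ => ?_)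
    constructor
    · rintro ⟨v, hv, hr, hs⟩
      exact ⟨v, hr, (ih _ _ hv).1 hs⟩
    · rintro ⟨v, hr, hs⟩
      have hv : v ∈ R.S N n := Or.inr ⟨!c, R.path_le N (Nat.le_add_right n k) hs⟩
      exact ⟨v, hv, hr, (ih _ _ hv).2 hs⟩

theorem S_zero : R.S N 0 = Set.univ := by
  ext w
  simp only [S, Set.mem_setOf_eq, Set.mem_univ, iff_true]
  by_cases h : R.V N (.inl 0) w
  · right
    by_cases h' : R.V N (.inl 1) w
    · exact ⟨true, h, by simp [h']⟩
    · exact ⟨false, h, by simp [h']⟩
  · exact Or.inl h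

theorem iter_S (n : ℕ) :
    (fun E : Set W => {v | v ∈ E ∧ Sat N R.peel E v})^[n] Set.univ = R.S N n := by
  induction n with
  | zero => rw [S_zero]; rfl
  | succ n ih =>
    rw [Function.iterate_succ_apply', ih]
    ext w
    simp only [Set.mem_setOf_eq]
    constructor
    · rintro ⟨hw, hs⟩
      rw [peel, sat_or, sat_or, sat_lk, R.sat_up N n 1 _ _ hw, R.sat_up N n 1 _ _ hw] at hs
      rcases hs with hs | hs | hs
      · exact Or.inl hs
      · exact Or.inr ⟨_, hs⟩
      · exact Or.inr ⟨_, hs⟩
    · intro hw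
      have hw' : w ∈ R.S N n := by
        rcases hw with hw | ⟨c, hw⟩
        · exact Or.inl hw
        · exact Or.inr ⟨c, R.path_anti N hw⟩
      refine ⟨hw', ?_⟩
      rw [peel, sat_or, sat_or, sat_lk, R.sat_up N n 1 _ _ hw', R.sat_up N n 1 _ _ hw']
      rcases hw with hw | ⟨c, hw⟩
      · exact Or.inl hw
      · cases c
        · exact Or.inr (Or.inr hw)
        · exact Or.inr (Or.inl hw)

/-- counter `j` of the `c`-class of `w` is at least `n` -/
def A (c : Bool) (j : J) (n : ℕ) (w : W) : Prop :=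
  ∃ v, N.rel (R.ag c) w v ∧ R.V N (.inr (.inl j)) v ∧ R.Path N (!c) n v

theorem A_le {c : Bool} {j : J} {k l : ℕ} {w : W} (hkl : k ≤ l) (h : R.A N c j l w) :
    R.A N c j k w := by
  obtain ⟨v, h1, h2, h3⟩ := h
  exact ⟨v, h1, h2, R.path_le N hkl h3⟩

theorem sat_al (n k : ℕ) (c : Bool) (j : J) (w : W) :
    Sat N (R.al c j k) (R.S N n) w ↔ R.A N c j (n + k) w := by
  rw [al, sat_dia]
  constructor
  · rintro ⟨v, hv, hr, hs⟩
    rw [sat_and, R.sat_up N n k _ _ hv] at hs
    exact ⟨v, hr, hs.1, hs.2⟩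
  · rintro ⟨v, hr, hb, hs⟩
    have hv : v ∈ R.S N n := Or.inr ⟨!c, R.path_le N (Nat.le_add_right n k) hs⟩
    refine ⟨v, hv, hr, ?_⟩
    rw [sat_and, R.sat_up N n k _ _ hv]
    exact ⟨hb, hs⟩

theorem sat_al0 (k : ℕ) (c : Bool) (j : J) (w : W) :
    Sat N (R.al c j k) Set.univ w ↔ R.A N c j k w := by
  rw [← R.S_zero N, R.sat_al N 0, Nat.zero_add]

section
variable [Fintype P] [Fintype J] [DecidableEq P] (M : DM P J)

/-- state label -/
def St (c : Bool) (s : Option P) (w : W) : Prop := R.V N (.inr (.inr (c, s))) w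
/-- colour -/
def Co (c : Bool) (w : W) : Prop := (R.V N (.inl 1) w ↔ c = true)
/-- branch -/
def Po (c : Bool) (w : W) : Prop := (R.V N (.inl 2) w ↔ c = true)
/-- link world -/
def Lk (w : W) : Prop := ¬ R.V N (.inl 0) w

/-- local conditions, semantically -/
structure Loc (w : W) : Prop where
  h1 : ∀ c, ∃ s, R.St N c s w
  h2 : ∀ c s t, R.St N c s w → R.St N c t w → s = t
  h3 : ∀ c s, R.St N c s w → ∀ v, N.rel (R.ag c) w v → R.Lk N v → R.St N c s v
  h4 : ∀ c, R.Co N c w → ¬ R.St N c none w
  h5 : ∀ c p t, R.Co N c w → R.St N c (some p) w → R.Po N t w → R.St N (!c) (M.nxt p t) w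
  h6 : ∀ c p, R.Co N c w → R.St N c (some p) w → (R.V N (.inl 2) w ↔ R.A N c (M.reg p) 1 w)
  h7 : ∀ c j, R.A N c j 0 w

theorem sat_loc (w : W) : Sat N (R.loc M) Set.univ w ↔ R.Loc N M w := by
  simp only [loc, l1, l2, l3, l4, l5, l6, l7, sat_and, sat_allF, sat_exF, sat_imp, sat_neg, sat_K,
    sat_lit, sat_iff, R.sat_al0, sat_lk]
  constructor
  · rintro ⟨h1, h2, h3, h4, h5, h6, h7⟩
    refine ⟨h1, ?_, ?_, h4, ?_, ?_, h7⟩
    · intro c s t hs ht
      by_contra hst
      have := h2 c s t
      rw [if_neg hst] at this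
      exact this ⟨hs, ht⟩
    · intro c s hs v hv hl
      exact h3 c s hs v (Set.mem_univ _) hv hl
    · intro c p t h hs ht
      exact h5 c p t ⟨h, hs, ht⟩
    · intro c p h hs
      exact h6 c p ⟨h, hs⟩
  · intro h
    refine ⟨h.h1, ?_, ?_, h.h4, ?_, ?_, h.h7⟩
    · intro c s t
      by_cases hst : s = t
      · rw [if_pos hst]; simp
      · rw [if_neg hst]
        rintro ⟨hs, ht⟩
        exact hst (h.h2 c s t hs ht)
    · intro c s hs v _ hv hl
      exact h.h3 c s hs v hv hl
    · rintro c p t ⟨h', hs, ht⟩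
      exact h.h5 c p t h' hs ht
    · rintro c p ⟨h', hs⟩
      exact h.h6 c p h' hs

/-- comparison, semantically -/
def Cmp (n : ℕ) (w : W) : Prop := ∀ c p t j, R.Co N c w → R.St N c (some p) w → R.Po N t w →
  (R.A N c j (n + (-(M.vec p t j)).toNat) w ↔ R.A N (!c) j (n + (M.vec p t j).toNat) w)

theorem sat_cmp (n : ℕ) (w : W) : Sat N (R.cmp M) (R.S N n) w ↔ R.Cmp N M n w := by
  simp only [cmp, sat_and, sat_allF, sat_imp, sat_lit, sat_iff, R.sat_al]
  constructor
  · intro h c p t j h1 h2 h3
    exact h c p t j ⟨h1, h2, h3⟩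
  · rintro h c p t j ⟨h1, h2, h3⟩
    exact h c p t j h1 h2 h3

end

end Par

end Pool.Agent.U788.PAL
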